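import Pool.Agent.NPC.Defs

/-!
# The pooling problem with one quality

Inputs `I`, pools `L` and outputs `J` are finite sets; an arc goes from an input to a pool or from a
pool to an output. There is exactly one quality.
-/

set_option autoImplicit false

namespace Pool.Agent.R531.Pooling

open Finset Pool.Agent.NPC

/-- The data of a pooling problem with one quality: `arcI i l` is `none` if there is no arc from
the input `i` to the pool `l`, and otherwise `some (c, u)` with the cost `c` (per unit of flow) and
the capacity `u` of this arc; similarly `arcJ l j` for the arcs from pools to outputs. `capI`,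
`capL` and `capJ` are the capacities of the vertices, `lam i` is the quality of the input `i`, and
`mu j` is the upper bound on the quality at the output `j`. -/
structure Data (I L J : Type) where
  arcI : I → L → Option (ℚ × ℚ)
  arcJ : L → J → Option (ℚ × ℚ)
  capI : I → ℚ
  capL : L → ℚ
  capJ : J → ℚ
  lam : I → ℚ
  mu : J → ℚ

/-- The cost of an arc (`0` if there is no arc). -/
def arcCost : Option (ℚ × ℚ) → ℝ
  | none => 0
  | some a => a.1

/-- The capacity of an arc (`0` if there is no arc, so that there is no flow). -/
def arcCap : Option (ℚ × ℚ) → ℝ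
  | none => 0
  | some a => a.2

/-- The variables: the flows `x i l` and `y l j` on the arcs and the pool qualities `p l`. -/
structure Flow (I L J : Type) where
  x : I → L → ℝ
  y : L → J → ℝ
  p : L → ℝ

variable {I L J : Type} [Fintype I] [Fintype L] [Fintype J]

/-- The constraints of the pooling problem. -/
structure Feasible (D : Data I L J) (F : Flow I L J) : Prop where
  /-- the flows into the pools are nonnegative and at most the capacities of the arcs -/
  x_mem : ∀ i l, 0 ≤ F.x i l ∧ F.x i l ≤ arcCap (D.arcI i l)
  /-- the flows out of the pools are nonnegative and at most the capacities of the arcs -/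
  y_mem : ∀ l j, 0 ≤ F.y l j ∧ F.y l j ≤ arcCap (D.arcJ l j)
  /-- flow conservation at the pools -/
  conservation : ∀ l, ∑ i, F.x i l = ∑ j, F.y l j
  /-- capacities of the inputs -/
  input_cap : ∀ i, ∑ l, F.x i l ≤ D.capI i
  /-- capacities of the pools -/
  pool_cap : ∀ l, ∑ i, F.x i l ≤ D.capL l
  /-- capacities of the outputs -/
  output_cap : ∀ j, ∑ l, F.y l j ≤ D.capJ j
  /-- blending in the pools -/
  pool_blending : ∀ l, ∑ i, D.lam i * F.x i l = F.p l * ∑ j, F.y l j
  /-- blending at the outputs -/
  output_blending : ∀ j, ∑ l, F.p l * F.y l j ≤ D.mu j * ∑ l, F.y l j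

/-- The cost of a flow. -/
noncomputable def cost (D : Data I L J) (F : Flow I L J) : ℝ :=
  ∑ i, ∑ l, arcCost (D.arcI i l) * F.x i l + ∑ l, ∑ j, arcCost (D.arcJ l j) * F.y l j

/-- An instance: inputs, pools and outputs are numbered. -/
structure Instance where
  /-- the number of inputs -/
  nI : ℕ
  /-- the number of pools -/
  nL : ℕ
  /-- the number of outputs -/
  nJ : ℕ
  /-- the data -/
  data : Data (Fin nI) (Fin nL) (Fin nJ)

/-- The instance as a tuple of lists (matrices are lists of rows). -/
def Instance.lists (P : Instance) :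
    (List (List (Option (ℚ × ℚ))) × List (List (Option (ℚ × ℚ)))) ×
      ((List ℚ × List ℚ × List ℚ) × (List ℚ × List ℚ)) :=
  ((List.ofFn fun i => List.ofFn fun l => P.data.arcI i l,
    List.ofFn fun l => List.ofFn fun j => P.data.arcJ l j),
   ((List.ofFn P.data.capI, List.ofFn P.data.capL, List.ofFn P.data.capJ),
    (List.ofFn P.data.lam, List.ofFn P.data.mu)))

theorem Instance.lists_injective : Function.Injective Instance.lists := by
  rintro ⟨a, b, c, D⟩ ⟨a', b', c', D'⟩ h
  simp only [Instance.lists, Prod.mk.injEq] at h
  obtain ⟨⟨h1, h2⟩, ⟨h3, h4, h5⟩, h6, h7⟩ := h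
  have e1 : a = a' := by simpa using congrArg List.length h3
  have e2 : b = b' := by simpa using congrArg List.length h4
  have e3 : c = c' := by simpa using congrArg List.length h5
  subst e1 e2 e3
  obtain ⟨d1, d2, d3, d4, d5, d6, d7⟩ := D
  obtain ⟨f1, f2, f3, f4, f5, f6, f7⟩ := D'
  simp only at h1 h2 h3 h4 h5 h6 h7
  have g1 : d1 = f1 := by
    funext i
    exact List.ofFn_injective (congrFun (List.ofFn_injective h1) i)
  have g2 : d2 = f2 := by
    funext i
    exact List.ofFn_injective (congrFun (List.ofFn_injective h2) i)
  rw [g1, g2, List.ofFn_injective h3, List.ofFn_injective h4, List.ofFn_injective h5,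
    List.ofFn_injective h6, List.ofFn_injective h7]

/-- Instances are encoded by their lists; numbers are written in binary. -/
instance : TEnc Instance := ⟨fun P => toT P.lists, fun _ _ h =>
  Instance.lists_injective (TEnc.inj h)⟩

/-- The rational number `v` is the minimum cost of the instance `P`. -/
def IsOptimum (P : Instance) (v : ℚ) : Prop :=
  IsLeast {c : ℝ | ∃ F, Feasible P.data F ∧ cost P.data F = c} (v : ℝ)

/-- A rational number which is an integer of absolute value at most `B`. -/
def IsSmall (B : ℕ) (q : ℚ) : Prop := ∃ z : ℤ, q = z ∧ |z| ≤ B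

/-- All numbers of the instance (costs, capacities, qualities, bounds) are integers with absolute
value at most `B`, and all capacities are nonnegative. -/
structure SmallNumbers (P : Instance) (B : ℕ) : Prop where
  arcI : ∀ i l a, P.data.arcI i l = some a → IsSmall B a.1 ∧ IsSmall B a.2 ∧ 0 ≤ a.2
  arcJ : ∀ l j a, P.data.arcJ l j = some a → IsSmall B a.1 ∧ IsSmall B a.2 ∧ 0 ≤ a.2
  capI : ∀ i, IsSmall B (P.data.capI i) ∧ 0 ≤ P.data.capI i
  capL : ∀ l, IsSmall B (P.data.capL l) ∧ 0 ≤ P.data.capL l
  capJ : ∀ j, IsSmall B (P.data.capJ j) ∧ 0 ≤ P.data.capJ j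
  lam : ∀ i, IsSmall B (P.data.lam i)
  mu : ∀ j, IsSmall B (P.data.mu j)

/-- Every pool and every output has in-degree at most two. -/
def InDegreeTwo (P : Instance) : Prop :=
  (∀ l, (univ.filter fun i => (P.data.arcI i l).isSome).card ≤ 2) ∧
    ∀ j, (univ.filter fun l => (P.data.arcJ l j).isSome).card ≤ 2

/-- Every input and every pool has out-degree at most two. -/
def OutDegreeTwo (P : Instance) : Prop :=
  (∀ i, (univ.filter fun l => (P.data.arcI i l).isSome).card ≤ 2) ∧
    ∀ l, (univ.filter fun j => (P.data.arcJ l j).isSome).card ≤ 2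

end Pool.Agent.R531.Pooling
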