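import Mathlib
import Pool.Agent.R531.Pooling.Defs

/-!
# Renaming inputs, pools and outputs
-/

set_option autoImplicit false

namespace Pool.Agent.R531.Pooling

open Finset Pool.Agent.NPC

variable {I L J I' L' J' : Type} [Fintype I] [Fintype L] [Fintype J] [Fintype I'] [Fintype L']
  [Fintype J']

/-- renaming -/
def Data.reindex (D : Data I L J) (e : I' ≃ I) (f : L' ≃ L) (g : J' ≃ J) : Data I' L' J' where
  arcI i l := D.arcI (e i) (f l)
  arcJ l j := D.arcJ (f l) (g j)
  capI i := D.capI (e i)
  capL l := D.capL (f l)
  capJ j := D.capJ (g j)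
  lam i := D.lam (e i)
  mu j := D.mu (g j)

/-- renaming of flows -/
def Flow.reindex (F : Flow I L J) (e : I' ≃ I) (f : L' ≃ L) (g : J' ≃ J) : Flow I' L' J' where
  x i l := F.x (e i) (f l)
  y l j := F.y (f l) (g j)
  p l := F.p (f l)

theorem Feasible.reindex {D : Data I L J} {F : Flow I L J} (h : Feasible D F) (e : I' ≃ I)
    (f : L' ≃ L) (g : J' ≃ J) : Feasible (D.reindex e f g) (F.reindex e f g) where
  x_mem i l := h.x_mem _ _
  y_mem l j := h.y_mem _ _
  conservation l := by
    have := h.conservation (f l)
    simp only [Flow.reindex]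
    rw [e.sum_comp (fun i => F.x i (f l)), g.sum_comp (fun j => F.y (f l) j)]
    exact this
  input_cap i := by
    have := h.input_cap (e i)
    simp only [Flow.reindex, Data.reindex]
    rw [f.sum_comp (fun l => F.x (e i) l)]
    exact this
  pool_cap l := by
    have := h.pool_cap (f l)
    simp only [Flow.reindex, Data.reindex]
    rw [e.sum_comp (fun i => F.x i (f l))]
    exact this
  output_cap j := by
    have := h.output_cap (g j)
    simp only [Flow.reindex, Data.reindex]
    rw [f.sum_comp (fun l => F.y l (g j))]
    exact this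
  pool_blending l := by
    have := h.pool_blending (f l)
    simp only [Flow.reindex, Data.reindex]
    rw [e.sum_comp (fun i => (D.lam i : ℝ) * F.x i (f l)), g.sum_comp (fun j => F.y (f l) j)]
    exact this
  output_blending j := by
    have := h.output_blending (g j)
    simp only [Flow.reindex, Data.reindex]
    rw [f.sum_comp (fun l => F.p l * F.y l (g j)), f.sum_comp (fun l => F.y l (g j))]
    exact this

theorem cost_reindex (D : Data I L J) (F : Flow I L J) (e : I' ≃ I) (f : L' ≃ L) (g : J' ≃ J) :
    cost (D.reindex e f g) (F.reindex e f g) = cost D F := by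
  simp only [cost, Flow.reindex, Data.reindex]
  rw [e.sum_comp (fun i => ∑ l, arcCost (D.arcI i (f l)) * F.x i (f l)),
    f.sum_comp (fun l => ∑ j, arcCost (D.arcJ l (g j)) * F.y l (g j))]
  congr 1
  · exact sum_congr rfl fun i _ => f.sum_comp (fun l => arcCost (D.arcI i l) * F.x i l)
  · exact sum_congr rfl fun l _ => g.sum_comp (fun j => arcCost (D.arcJ l j) * F.y l j)

theorem reindex_reindex (D : Data I L J) (e : I' ≃ I) (f : L' ≃ L) (g : J' ≃ J) :
    (D.reindex e f g).reindex e.symm f.symm g.symm = D := by
  cases D
  simp [Data.reindex]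

theorem costs_reindex (D : Data I L J) (e : I' ≃ I) (f : L' ≃ L) (g : J' ≃ J) :
    {c : ℝ | ∃ F, Feasible (D.reindex e f g) F ∧ cost (D.reindex e f g) F = c} =
      {c : ℝ | ∃ F, Feasible D F ∧ cost D F = c} := by
  ext c
  constructor
  · rintro ⟨F, hF, hc⟩
    refine ⟨F.reindex e.symm f.symm g.symm, ?_, ?_⟩
    · have := hF.reindex e.symm f.symm g.symm
      rwa [reindex_reindex] at this
    · have := cost_reindex (D.reindex e f g) F e.symm f.symm g.symm
      rw [reindex_reindex] at this
      rw [this, hc]
  · rintro ⟨F, hF, hc⟩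
    exact ⟨F.reindex e f g, hF.reindex e f g, by rw [cost_reindex, hc]⟩

theorem card_filter_equiv {α β : Type} [Fintype α] [Fintype β] (e : α ≃ β) (p : β → Prop)
    [DecidablePred p] :
    (univ.filter fun a => p (e a)).card = (univ.filter fun b => p b).card := by
  classical
  rw [← Fintype.card_subtype, ← Fintype.card_subtype]
  exact Fintype.card_congr (e.subtypeEquiv fun _ => Iff.rfl)

end Pool.Agent.R531.Pooling
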