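import Mathlib
import Pool.Agent.R531.Pooling.Reindex

/-!
# In-degree two: independent sets as pooling problems

Pool `l` mixes an expensive input of quality `0` and a free input of quality `2`. Its arcs go to a
strict output (bound `0`) and to the outputs `(i, j)` with `l = i` or `l = j`, with bound `1` if `i`
and `j` are in conflict and bound `2` otherwise.
-/

set_option autoImplicit false

namespace Pool.Agent.R531.Pooling

open Finset Pool.Agent.NPC

section

variable (n : ℕ) (conf : Fin n → Fin n → Bool)

/-- number of outputs `(i, j)` adjacent to a pool -/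
def dd : ℕ := 2 * n - 1

/-- the data -/
def inData : Data Bool (Fin n) (Fin n ⊕ Fin n × Fin n) where
  arcI b _ := some (if b then 0 else 1, ((4 * dd n * n : ℕ) : ℚ))
  arcJ l j := match j with
    | Sum.inl i => if i = l then some (-2, ((2 * dd n - 1 : ℕ) : ℚ)) else none
    | Sum.inr q => if l = q.1 ∨ l = q.2 then some (-1, 2) else none
  capI _ := ((4 * dd n * n : ℕ) : ℚ)
  capL _ := ((4 * dd n * n : ℕ) : ℚ)
  capJ _ := ((4 * dd n * n : ℕ) : ℚ)
  lam b := if b then 2 else 0
  mu j := match j with
    | Sum.inl _ => 0
    | Sum.inr q => if conf q.1 q.2 then 1 else 2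

/-- no two elements are in conflict -/
def Free (S : Finset (Fin n)) : Prop := ∀ i ∈ S, ∀ j ∈ S, conf i j = false

end

variable {n : ℕ} {conf : Fin n → Fin n → Bool}

theorem card_adj (l : Fin n) :
    (univ.filter fun q : Fin n × Fin n => l = q.1 ∨ l = q.2).card = dd n := by
  classical
  have h1 : (univ.filter fun q : Fin n × Fin n => l = q.1 ∨ l = q.2) =
      (univ.image fun j : Fin n => (l, j)) ∪ ((univ.erase l).image fun j : Fin n => (j, l)) := by
    ext ⟨i, j⟩
    simp only [mem_filter, mem_univ, true_and, mem_union, mem_image, Prod.mk.injEq, mem_erase,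
      ne_eq, and_true]
    constructor
    · rintro (h | h)
      · exact Or.inl ⟨j, h, rfl⟩
      · by_cases hi : l = i
        · exact Or.inl ⟨j, hi, rfl⟩
        · exact Or.inr ⟨i, fun h' => hi h'.symm, rfl, h⟩
    · rintro (⟨a, h, _⟩ | ⟨a, _, _, h⟩)
      · exact Or.inl h
      · exact Or.inr h
  rw [h1, card_union_of_disjoint, card_image_of_injective, card_image_of_injective,
    card_erase_of_mem (mem_univ l)]
  · simp only [card_univ, Fintype.card_fin]
    have := l.2
    unfold dd
    omega
  · intro a b h
    simpa using h
  · intro a b h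
    simpa using h
  · rw [disjoint_left]
    rintro ⟨i, j⟩ h h'
    simp only [mem_image, mem_univ, true_and, Prod.mk.injEq, mem_erase, ne_eq, and_true] at h h'
    obtain ⟨a, h, _⟩ := h
    obtain ⟨b, hb, h2, _⟩ := h'
    exact hb (h2.trans h.symm)

theorem dd_pos (l : Fin n) : 1 ≤ dd n := by
  have := l.2
  unfold dd
  omega

theorem sum_adj (l : Fin n) (c : ℝ) :
    ∑ q : Fin n × Fin n, (if l = q.1 ∨ l = q.2 then c else 0) = dd n * c := by
  rw [← sum_filter, sum_const, card_adj, nsmul_eq_mul]

/-- the part of the cost that belongs to the pool `l` -/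
noncomputable def inCost (F : Flow Bool (Fin n) (Fin n ⊕ Fin n × Fin n)) (l : Fin n) : ℝ :=
  F.x false l - 2 * F.y l (Sum.inl l) - ∑ q : Fin n × Fin n, F.y l (Sum.inr q)

theorem in_y_inl {F : Flow Bool (Fin n) (Fin n ⊕ Fin n × Fin n)} (h : Feasible (inData n conf) F)
    (l i : Fin n) (hi : i ≠ l) : F.y l (Sum.inl i) = 0 := by
  have := h.y_mem l (Sum.inl i)
  simp only [inData, if_neg hi, arcCap] at this
  linarith [this.1, this.2]

theorem in_y_inr {F : Flow Bool (Fin n) (Fin n ⊕ Fin n × Fin n)} (h : Feasible (inData n conf) F)
    (l : Fin n) (q : Fin n × Fin n) (hq : ¬ (l = q.1 ∨ l = q.2)) : F.y l (Sum.inr q) = 0 := by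
  have := h.y_mem l (Sum.inr q)
  simp only [inData, if_neg hq, arcCap] at this
  linarith [this.1, this.2]

theorem in_cost {F : Flow Bool (Fin n) (Fin n ⊕ Fin n × Fin n)} (h : Feasible (inData n conf) F) :
    cost (inData n conf) F = ∑ l, inCost F l := by
  unfold cost inCost
  rw [sum_comm, ← sum_add_distrib]
  refine sum_congr rfl fun l _ => ?_
  rw [Fintype.sum_sum_type, Fintype.sum_bool]
  have e1 : ∑ i : Fin n, arcCost ((inData n conf).arcJ l (Sum.inl i)) * F.y l (Sum.inl i) =
      -2 * F.y l (Sum.inl l) := by
    rw [sum_eq_single l]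
    · simp [inData, arcCost]
    · intro i _ hi
      rw [in_y_inl h l i hi, mul_zero]
    · intro hl
      exact absurd (mem_univ l) hl
  have e2 : ∑ q : Fin n × Fin n, arcCost ((inData n conf).arcJ l (Sum.inr q)) * F.y l (Sum.inr q) =
      - ∑ q : Fin n × Fin n, F.y l (Sum.inr q) := by
    rw [← sum_neg_distrib]
    refine sum_congr rfl fun q _ => ?_
    by_cases hq : l = q.1 ∨ l = q.2
    · simp only [inData, if_pos hq, arcCost]
      push_cast
      ring
    · rw [in_y_inr h l q hq]
      simp
  rw [e1, e2]
  simp only [inData, arcCost]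
  push_cast
  simp
  ring

theorem in_lower {F : Flow Bool (Fin n) (Fin n ⊕ Fin n × Fin n)} (h : Feasible (inData n conf) F)
    (hirr : ∀ i, conf i i = false) :
    ∃ S : Finset (Fin n), Free n conf S ∧
      -(n * (2 * dd n - 1) + (S.card : ℝ)) ≤ cost (inData n conf) F := by
  classical
  let S : Finset (Fin n) := univ.filter fun l => 1 < F.p l ∧ ∀ l', conf l l' = true → F.p l' ≤ 1
  refine ⟨S, ?_, ?_⟩
  · intro i hi j hj
    by_contra hc
    rw [Bool.not_eq_false] at hc
    simp only [S, mem_filter, mem_univ, true_and] at hi hj
    have := hi.2 j hc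
    linarith [hj.1]
  rw [in_cost h]
  have key : ∀ l, -((2 * (dd n : ℝ) - 1) + (if l ∈ S then 1 else 0)) ≤ inCost F l := by
    intro l
    have hD : (1 : ℝ) ≤ dd n := by exact_mod_cast dd_pos l
    have hcons := h.conservation l
    rw [Fintype.sum_sum_type, Fintype.sum_bool] at hcons
    have hA : ∑ i : Fin n, F.y l (Sum.inl i) = F.y l (Sum.inl l) := by
      rw [sum_eq_single l]
      · intro i _ hi
        exact in_y_inl h l i hi
      · intro hl
        exact absurd (mem_univ l) hl
    rw [hA] at hcons
    have hbl := h.pool_blending l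
    rw [Fintype.sum_sum_type, Fintype.sum_bool, hA] at hbl
    simp only [inData, if_true, Bool.false_eq_true, if_false] at hbl
    push_cast at hbl
    set E : ℝ := ∑ q : Fin n × Fin n, F.y l (Sum.inr q) with hE
    set yA : ℝ := F.y l (Sum.inl l) with hyA
    have hx1 := (h.x_mem true l).1
    have hx0 := (h.x_mem false l).1
    have hyA0 : 0 ≤ yA := (h.y_mem l (Sum.inl l)).1
    have hyA1 : yA ≤ 2 * dd n - 1 := by
      have := (h.y_mem l (Sum.inl l)).2
      simp only [inData, if_true, arcCap] at this
      have h2 : ((2 * dd n - 1 : ℕ) : ℝ) = 2 * dd n - 1 := by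
        rw [Nat.cast_sub (by have := dd_pos l; omega)]
        push_cast
        ring
      push_cast at this
      rw [← hyA] at this
      rw [← h2]
      exact_mod_cast this
    have hE0 : 0 ≤ E := sum_nonneg fun q _ => (h.y_mem l (Sum.inr q)).1
    have hyq : ∀ q, F.y l (Sum.inr q) ≤ if l = q.1 ∨ l = q.2 then 2 else 0 := by
      intro q
      by_cases hq : l = q.1 ∨ l = q.2
      · have := (h.y_mem l (Sum.inr q)).2
        simp only [inData, if_pos hq, arcCap] at this
        rw [if_pos hq]
        exact_mod_cast this
      · rw [if_neg hq, in_y_inr h l q hq]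
    have hE1 : E ≤ dd n * 2 := by
      rw [← sum_adj l 2]
      exact sum_le_sum fun q _ => hyq q
    have hin : inCost F l = -(F.x true l + yA) := by
      unfold inCost
      rw [← hyA, ← hE]
      linarith
    rw [hin]
    have hstrict : F.p l * yA ≤ 0 := by
      have := h.output_blending (Sum.inl l)
      simp only [inData] at this
      rw [sum_eq_single l] at this
      · simpa using this
      · intro i _ hi
        rw [in_y_inl h i l (fun h' => hi h'.symm), mul_zero]
      · intro hl
        exact absurd (mem_univ l) hl
    rcases le_or_gt (F.p l) 0 with hp | hp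
    · -- quality zero
      have h1 : F.p l * (yA + E) ≤ 0 := mul_nonpos_of_nonpos_of_nonneg hp (by linarith)
      have h2 : F.x true l = 0 := by linarith
      have h3 : (0 : ℝ) ≤ if l ∈ S then 1 else 0 := by split_ifs <;> norm_num
      rw [h2]
      linarith
    · have hyA' : yA = 0 := by
        have : yA ≤ 0 := by
          by_contra hc
          push Not at hc
          have := mul_pos hp hc
          linarith
        linarith
      rw [hyA'] at hcons hbl ⊢
      rcases le_or_gt (F.p l) 1 with hp1 | hp1
      · -- low quality
        have h1 : F.p l * (0 + E) ≤ 1 * (0 + E) := mul_le_mul_of_nonneg_right hp1 (by linarith)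
        have h3 : (0 : ℝ) ≤ if l ∈ S then 1 else 0 := by split_ifs <;> norm_num
        linarith
      · by_cases hS : l ∈ S
        · rw [if_pos hS]
          linarith
        · rw [if_neg hS]
          -- some conflicting pool has high quality
          have : ∃ l', conf l l' = true ∧ 1 < F.p l' := by
            by_contra hc
            push Not at hc
            exact hS (by simp only [S, mem_filter, mem_univ, true_and]; exact ⟨hp1, hc⟩)
          obtain ⟨l', hc, hp'⟩ := this
          have hne : l ≠ l' := by
            rintro rfl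
            rw [hirr] at hc
            exact absurd hc (by simp)
          have hblend := h.output_blending (Sum.inr (l, l'))
          simp only [inData, if_pos hc] at hblend
          have hsum : ∀ f : Fin n → ℝ, (∀ k, k ≠ l → k ≠ l' → f k = 0) →
              ∑ k, f k = f l + f l' := by
            intro f hf
            rw [← sum_subset (subset_univ {l, l'}), sum_pair hne]
            intro k _ hk
            simp only [mem_insert, mem_singleton, not_or] at hk
            exact hf k hk.1 hk.2
          have hz : ∀ k, k ≠ l → k ≠ l' → F.y k (Sum.inr (l, l')) = 0 := fun k h1 h2 =>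
            in_y_inr h k (l, l') (by simp [h1, h2])
          rw [hsum _ (fun k h1 h2 => by rw [hz k h1 h2, mul_zero]), hsum _ hz] at hblend
          push_cast at hblend
          have g1 := (h.y_mem l (Sum.inr (l, l'))).1
          have g2 := (h.y_mem l' (Sum.inr (l, l'))).1
          have hzero : F.y l (Sum.inr (l, l')) = 0 := by
            by_contra hne0
            have hpos : 0 < F.y l (Sum.inr (l, l')) := lt_of_le_of_ne g1 (Ne.symm hne0)
            have h5 : 0 < (F.p l - 1) * F.y l (Sum.inr (l, l')) := mul_pos (by linarith) hpos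
            have h6 : 0 ≤ (F.p l' - 1) * F.y l' (Sum.inr (l, l')) :=
              mul_nonneg (by linarith) g2
            nlinarith
          have hE2 : E ≤ dd n * 2 - 2 := by
            rw [← sum_adj l 2, hE]
            rw [← sum_erase_add _ _ (mem_univ (l, l')), ← sum_erase_add univ
              (fun q : Fin n × Fin n => if l = q.1 ∨ l = q.2 then (2 : ℝ) else 0)
              (mem_univ (l, l')), hzero]
            have : ∑ q ∈ univ.erase (l, l'), F.y l (Sum.inr q) ≤
                ∑ q ∈ univ.erase (l, l'), (if l = q.1 ∨ l = q.2 then (2 : ℝ) else 0) :=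
              sum_le_sum fun q _ => hyq q
            simp only [true_or, if_true]
            linarith
          linarith
  calc -(n * (2 * dd n - 1) + (S.card : ℝ))
      = ∑ l : Fin n, -((2 * (dd n : ℝ) - 1) + (if l ∈ S then 1 else 0)) := by
        rw [sum_neg_distrib, sum_add_distrib, sum_const, card_univ, Fintype.card_fin,
          nsmul_eq_mul, sum_ite_mem, univ_inter, sum_const, nsmul_eq_mul, mul_one]
    _ ≤ _ := sum_le_sum fun l _ => key l

/-- the flow of an independent set: the pools of the set have quality `2`, the others `0` -/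
noncomputable def inFlow (S : Finset (Fin n)) : Flow Bool (Fin n) (Fin n ⊕ Fin n × Fin n) where
  x b l := if b = true then (if l ∈ S then 2 * (dd n : ℝ) else 0)
    else (if l ∈ S then 0 else 4 * (dd n : ℝ) - 1)
  y l j := match j with
    | Sum.inl i => if i = l then (if l ∈ S then 0 else 2 * (dd n : ℝ) - 1) else 0
    | Sum.inr q => if l = q.1 ∨ l = q.2 then 2 else 0
  p l := if l ∈ S then 2 else 0

theorem in_sumy (S : Finset (Fin n)) (l : Fin n) :
    ∑ j, (inFlow S).y l j = if l ∈ S then 2 * (dd n : ℝ) else 4 * dd n - 1 := by
  rw [Fintype.sum_sum_type]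
  simp only [inFlow]
  rw [sum_adj l 2, sum_ite_eq' univ l (fun i => if l ∈ S then (0 : ℝ) else 2 * (dd n : ℝ) - 1)]
  simp only [mem_univ, if_true]
  split_ifs <;> ring

theorem in_feasible (S : Finset (Fin n)) (hS : Free n conf S) (hirr : ∀ i, conf i i = false) :
    Feasible (inData n conf) (inFlow S) := by
  classical
  have hbig : ∀ l : Fin n, (1 : ℝ) ≤ dd n ∧ (1 : ℝ) ≤ n ∧ (dd n : ℝ) ≤ dd n * n := by
    intro l
    have h1 : (1 : ℝ) ≤ dd n := by exact_mod_cast dd_pos l
    have h2 : (1 : ℝ) ≤ n := by
      have := l.2
      exact_mod_cast (by omega : 1 ≤ n)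
    exact ⟨h1, h2, by nlinarith⟩
  have hx : ∀ (b : Bool) (l : Fin n), 0 ≤ (inFlow S).x b l ∧ (inFlow S).x b l ≤ 4 * dd n := by
    intro b l
    obtain ⟨h1, h2, h3⟩ := hbig l
    simp only [inFlow]
    split_ifs <;> constructor <;> linarith
  have hsumx : ∀ l, ∑ i, (inFlow S).x i l = if l ∈ S then 2 * (dd n : ℝ) else 4 * dd n - 1 := by
    intro l
    rw [Fintype.sum_bool]
    simp only [inFlow, if_true, Bool.false_eq_true, if_false]
    split_ifs <;> ring
  constructor
  · intro b l
    refine ⟨(hx b l).1, (hx b l).2.trans ?_⟩
    obtain ⟨h1, h2, h3⟩ := hbig l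
    simp only [inData, arcCap]
    push_cast
    linarith
  · intro l j
    obtain ⟨h1, h2, h3⟩ := hbig l
    have h4 : ((2 * dd n - 1 : ℕ) : ℝ) = 2 * dd n - 1 := by
      rw [Nat.cast_sub (by have := dd_pos l; omega)]
      push_cast
      ring
    rcases j with i | q
    · simp only [inFlow, inData]
      by_cases hi : i = l
      · simp only [if_pos hi, arcCap]
        rw [Rat.cast_natCast, h4]
        split_ifs <;> constructor <;> linarith
      · simp [if_neg hi, arcCap]
    · simp only [inFlow, inData]
      by_cases hq : l = q.1 ∨ l = q.2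
      · simp [if_pos hq, arcCap]
      · simp [if_neg hq, arcCap]
  · intro l
    rw [hsumx, in_sumy]
  · intro b
    have h1 : ∑ l, (inFlow S).x b l ≤ ∑ _l : Fin n, (4 * (dd n : ℝ)) :=
      sum_le_sum fun l _ => (hx b l).2
    refine h1.trans (le_of_eq ?_)
    simp only [inData, sum_const, card_univ, Fintype.card_fin, nsmul_eq_mul]
    push_cast
    ring
  · intro l
    rw [hsumx]
    obtain ⟨h1, h2, h3⟩ := hbig l
    simp only [inData]
    push_cast
    split_ifs <;> linarith
  · intro j
    rcases j with i | q
    · obtain ⟨h1, h2, h3⟩ := hbig i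
      simp only [inFlow, inData]
      rw [sum_ite_eq univ i (fun l => if l ∈ S then (0 : ℝ) else 2 * (dd n : ℝ) - 1)]
      simp only [mem_univ, if_true]
      push_cast
      split_ifs <;> linarith
    · obtain ⟨h1, h2, h3⟩ := hbig q.1
      have h5 : ∑ l : Fin n, (if l = q.1 ∨ l = q.2 then (2 : ℝ) else 0) ≤ 4 := by
        calc ∑ l : Fin n, (if l = q.1 ∨ l = q.2 then (2 : ℝ) else 0)
            ≤ ∑ l : Fin n, ((if l = q.1 then (2 : ℝ) else 0) + (if l = q.2 then (2 : ℝ) else 0)) := by
              refine sum_le_sum fun l _ => ?_
              split_ifs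
              all_goals first | (norm_num; done) | (exfalso; tauto)
          _ = 4 := by
              rw [sum_add_distrib, sum_ite_eq' univ q.1 (fun _ => (2 : ℝ)),
                sum_ite_eq' univ q.2 (fun _ => (2 : ℝ))]
              simp only [mem_univ, if_true]
              norm_num
      simp only [inFlow, inData]
      push_cast
      linarith
  · intro l
    rw [in_sumy, Fintype.sum_bool]
    simp only [inFlow, inData, if_true, Bool.false_eq_true, if_false]
    push_cast
    split_ifs <;> ring
  · intro j
    rcases j with i | q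
    · simp only [inFlow, inData]
      rw [Rat.cast_zero, zero_mul]
      refine le_of_eq (sum_eq_zero fun l _ => ?_)
      split_ifs <;> simp
    · simp only [inFlow, inData]
      rw [mul_sum]
      by_cases hc : conf q.1 q.2 = true
      · have hne : q.1 ≠ q.2 := by
          intro h'
          rw [← h', hirr] at hc
          exact absurd hc (by simp)
        have hsum : ∀ f : Fin n → ℝ, (∀ k, k ≠ q.1 → k ≠ q.2 → f k = 0) →
            ∑ k, f k = f q.1 + f q.2 := by
          intro f hf
          rw [← sum_subset (subset_univ {q.1, q.2}), sum_pair hne]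
          intro k _ hk
          simp only [mem_insert, mem_singleton, not_or] at hk
          exact hf k hk.1 hk.2
        rw [hsum _ (fun k h1 h2 => by simp [h1, h2]), hsum _ (fun k h1 h2 => by simp [h1, h2]),
          if_pos hc]
        simp only [true_or, or_true, if_true]
        push_cast
        by_cases g1 : q.1 ∈ S
        · by_cases g2 : q.2 ∈ S
          · have := hS _ g1 _ g2
            rw [hc] at this
            exact absurd this (by simp)
          · simp only [g1, g2, if_true, if_false]
            norm_num
        · by_cases g2 : q.2 ∈ S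
          · simp only [g1, g2, if_true, if_false]
            norm_num
          · simp only [g1, g2, if_false]
            norm_num
      · rw [if_neg hc]
        refine sum_le_sum fun l _ => ?_
        push_cast
        split_ifs <;> norm_num

theorem in_cost_flow (S : Finset (Fin n)) (hS : Free n conf S) (hirr : ∀ i, conf i i = false) :
    cost (inData n conf) (inFlow S) = -(n * (2 * dd n - 1) + (S.card : ℝ)) := by
  classical
  rw [in_cost (in_feasible S hS hirr)]
  have : ∀ l, inCost (inFlow S) l = -((2 * (dd n : ℝ) - 1) + (if l ∈ S then 1 else 0)) := by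
    intro l
    unfold inCost
    simp only [inFlow, Bool.false_eq_true, if_false, if_true]
    rw [sum_adj l 2]
    split_ifs <;> ring
  rw [sum_congr rfl fun l _ => this l, sum_neg_distrib, sum_add_distrib, sum_const, card_univ,
    Fintype.card_fin, nsmul_eq_mul, sum_ite_mem, univ_inter, sum_const, nsmul_eq_mul, mul_one]

end Pool.Agent.R531.Pooling
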