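import Mathlib
import Pool.Agent.R531.Pooling.InTwo

/-!
# Out-degree two: independent sets as pooling problems

The good input `(i, j)` feeds the pools `i` and `j`; its capacity is `1` if `i` and `j` are in
conflict and `2` otherwise. Pool `l` has a bad input of its own and two outputs: a strict one with
a high price and a tolerant one.
-/

set_option autoImplicit false

namespace Pool.Agent.R531.Pooling

open Finset Pool.Agent.NPC

section

variable (n : ℕ) (conf : Fin n → Fin n → Bool)

/-- the data -/
def outData : Data (Fin n × Fin n ⊕ Fin n) (Fin n) (Fin n ⊕ Fin n) where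
  arcI i l := match i with
    | Sum.inl q => if l = q.1 ∨ l = q.2 then some (0, 1) else none
    | Sum.inr k => if k = l then some (0, ((3 * dd n - 1 : ℕ) : ℚ)) else none
  arcJ l j := match j with
    | Sum.inl i => if i = l then some (-3, (dd n : ℚ)) else none
    | Sum.inr i => if i = l then some (-1, ((3 * dd n - 1 : ℕ) : ℚ)) else none
  capI i := match i with
    | Sum.inl q => if conf q.1 q.2 then 1 else 2
    | Sum.inr _ => ((4 * dd n : ℕ) : ℚ)
  capL _ := ((4 * dd n : ℕ) : ℚ)
  capJ _ := ((4 * dd n : ℕ) : ℚ)
  lam i := match i with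
    | Sum.inl _ => 0
    | Sum.inr _ => 1
  mu j := match j with
    | Sum.inl _ => 0
    | Sum.inr _ => 1

end

variable {n : ℕ} {conf : Fin n → Fin n → Bool}

/-- flows -/
abbrev OFlow (n : ℕ) : Type := Flow (Fin n × Fin n ⊕ Fin n) (Fin n) (Fin n ⊕ Fin n)

theorem out_x_inl {F : OFlow n} (h : Feasible (outData n conf) F) (l : Fin n) (q : Fin n × Fin n)
    (hq : ¬ (l = q.1 ∨ l = q.2)) : F.x (Sum.inl q) l = 0 := by
  have := h.x_mem (Sum.inl q) l
  simp only [outData, if_neg hq, arcCap] at this
  linarith [this.1, this.2]

theorem out_x_inr {F : OFlow n} (h : Feasible (outData n conf) F) (l k : Fin n) (hk : k ≠ l) :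
    F.x (Sum.inr k) l = 0 := by
  have := h.x_mem (Sum.inr k) l
  simp only [outData, if_neg hk, arcCap] at this
  linarith [this.1, this.2]

theorem out_y_inl {F : OFlow n} (h : Feasible (outData n conf) F) (l k : Fin n) (hk : k ≠ l) :
    F.y l (Sum.inl k) = 0 := by
  have := h.y_mem l (Sum.inl k)
  simp only [outData, if_neg hk, arcCap] at this
  linarith [this.1, this.2]

theorem out_y_inr {F : OFlow n} (h : Feasible (outData n conf) F) (l k : Fin n) (hk : k ≠ l) :
    F.y l (Sum.inr k) = 0 := by
  have := h.y_mem l (Sum.inr k)
  simp only [outData, if_neg hk, arcCap] at this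
  linarith [this.1, this.2]

theorem sum_one {f : Fin n → ℝ} (l : Fin n) (hf : ∀ k, k ≠ l → f k = 0) : ∑ k, f k = f l := by
  rw [sum_eq_single l]
  · intro i _ hi
    exact hf i hi
  · intro hl
    exact absurd (mem_univ l) hl

theorem out_cost {F : OFlow n} (h : Feasible (outData n conf) F) :
    cost (outData n conf) F = ∑ l, -(3 * F.y l (Sum.inl l) + F.y l (Sum.inr l)) := by
  unfold cost
  have e0 : ∑ i, ∑ l, arcCost ((outData n conf).arcI i l) * F.x i l = 0 := by
    refine sum_eq_zero fun i _ => sum_eq_zero fun l _ => ?_
    have : arcCost ((outData n conf).arcI i l) = 0 := by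
      rcases i with q | k <;> simp only [outData] <;> split_ifs <;> simp [arcCost]
    rw [this, zero_mul]
  rw [e0, zero_add]
  refine sum_congr rfl fun l _ => ?_
  rw [Fintype.sum_sum_type, sum_one l, sum_one l]
  · simp only [outData, if_true, arcCost]
    push_cast
    ring
  · intro k hk
    rw [out_y_inr h l k hk, mul_zero]
  · intro k hk
    rw [out_y_inl h l k hk, mul_zero]

theorem out_lower {F : OFlow n} (h : Feasible (outData n conf) F)
    (hirr : ∀ i, conf i i = false) :
    ∃ S : Finset (Fin n), Free n conf S ∧
      -(n * (3 * dd n - 1) + (S.card : ℝ)) ≤ cost (outData n conf) F := by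
  classical
  -- the good flow into a pool
  let z : Fin n → ℝ := fun l => ∑ q : Fin n × Fin n, F.x (Sum.inl q) l
  let S : Finset (Fin n) := univ.filter fun l => (dd n : ℝ) - 1 / 3 < z l
  have hxq : ∀ l q, F.x (Sum.inl q) l ≤ if l = q.1 ∨ l = q.2 then 1 else 0 := by
    intro l q
    by_cases hq : l = q.1 ∨ l = q.2
    · have := (h.x_mem (Sum.inl q) l).2
      simp only [outData, if_pos hq, arcCap] at this
      rw [if_pos hq]
      exact_mod_cast this
    · rw [if_neg hq, out_x_inl h l q hq]
  have hz0 : ∀ l, 0 ≤ z l := fun l => sum_nonneg fun q _ => (h.x_mem (Sum.inl q) l).1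
  have hz1 : ∀ l, z l ≤ dd n := by
    intro l
    have := sum_adj l 1
    rw [mul_one] at this
    rw [← this]
    exact sum_le_sum fun q _ => hxq l q
  refine ⟨S, ?_, ?_⟩
  · intro i hi j hj
    by_contra hc
    rw [Bool.not_eq_false] at hc
    simp only [S, mem_filter, mem_univ, true_and] at hi hj
    have hne : i ≠ j := by
      rintro rfl
      rw [hirr] at hc
      exact absurd hc (by simp)
    have hcap := h.input_cap (Sum.inl (i, j))
    simp only [outData, if_pos hc] at hcap
    have h2 : F.x (Sum.inl (i, j)) i + F.x (Sum.inl (i, j)) j ≤ 1 := by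
      have h3 : F.x (Sum.inl (i, j)) i + F.x (Sum.inl (i, j)) j =
          ∑ k ∈ ({i, j} : Finset (Fin n)), F.x (Sum.inl (i, j)) k := by rw [sum_pair hne]
      have h4 : ∑ k ∈ ({i, j} : Finset (Fin n)), F.x (Sum.inl (i, j)) k ≤
          ∑ k, F.x (Sum.inl (i, j)) k :=
        sum_le_sum_of_subset_of_nonneg (subset_univ _) fun k _ _ =>
          (h.x_mem (Sum.inl (i, j)) k).1
      push_cast at hcap
      linarith
    have hrest : ∀ l : Fin n, (l = i ∨ l = j) →
        z l - F.x (Sum.inl (i, j)) l ≤ dd n - 1 := by
      intro l hl
      have h5 : z l = ∑ q ∈ univ.erase (i, j), F.x (Sum.inl q) l + F.x (Sum.inl (i, j)) l :=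
        (sum_erase_add _ _ (mem_univ (i, j))).symm
      have h6 := sum_adj l 1
      rw [mul_one, ← sum_erase_add _ _ (mem_univ (i, j))] at h6
      simp only [if_pos hl] at h6
      have h7 : ∑ q ∈ univ.erase (i, j), F.x (Sum.inl q) l ≤
          ∑ q ∈ univ.erase (i, j), (if l = q.1 ∨ l = q.2 then (1 : ℝ) else 0) :=
        sum_le_sum fun q _ => hxq l q
      linarith
    have h8 := hrest i (Or.inl rfl)
    have h9 := hrest j (Or.inr rfl)
    linarith
  rw [out_cost h]
  have key : ∀ l, -((3 * (dd n : ℝ) - 1) + (if l ∈ S then 1 else 0)) ≤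
      -(3 * F.y l (Sum.inl l) + F.y l (Sum.inr l)) := by
    intro l
    have hD : (1 : ℝ) ≤ dd n := by exact_mod_cast dd_pos l
    set yA : ℝ := F.y l (Sum.inl l) with hyA
    set yB : ℝ := F.y l (Sum.inr l) with hyB
    have hyA0 : 0 ≤ yA := (h.y_mem l (Sum.inl l)).1
    have hyB0 : 0 ≤ yB := (h.y_mem l (Sum.inr l)).1
    have hyB1 : yB ≤ 3 * dd n - 1 := by
      have := (h.y_mem l (Sum.inr l)).2
      simp only [outData, if_true, arcCap] at this
      have h2 : ((3 * dd n - 1 : ℕ) : ℝ) = 3 * dd n - 1 := by
        rw [Nat.cast_sub (by have := dd_pos l; omega)]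
        push_cast
        ring
      rw [← hyB, Rat.cast_natCast, h2] at this
      exact this
    have hsumy : ∑ j, F.y l j = yA + yB := by
      rw [Fintype.sum_sum_type, sum_one l (fun k hk => out_y_inl h l k hk),
        sum_one l (fun k hk => out_y_inr h l k hk)]
    have hcons := h.conservation l
    rw [hsumy, Fintype.sum_sum_type, sum_one l (fun k hk => out_x_inr h l k hk)] at hcons
    have hbl := h.pool_blending l
    rw [hsumy, Fintype.sum_sum_type, sum_one l] at hbl
    swap
    · intro k hk
      rw [out_x_inr h l k hk, mul_zero]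
    simp only [outData] at hbl
    push_cast at hbl
    simp only [zero_mul, sum_const_zero, zero_add, one_mul] at hbl
    have hw0 := (h.x_mem (Sum.inr l) l).1
    have hzl : ∑ q : Fin n × Fin n, F.x (Sum.inl q) l = z l := rfl
    rw [hzl] at hcons
    have hstrict : F.p l * yA ≤ 0 := by
      have := h.output_blending (Sum.inl l)
      simp only [outData] at this
      rw [sum_one l] at this
      · simpa using this
      · intro i hi
        rw [out_y_inl h i l (fun h' => hi h'.symm), mul_zero]
    have h3 : (0 : ℝ) ≤ if l ∈ S then 1 else 0 := by split_ifs <;> norm_num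
    rcases eq_or_lt_of_le hyA0 with hA | hA
    · -- no flow to the strict output
      rw [← hA]
      linarith
    · have hp : F.p l ≤ 0 := by
        by_contra hc
        push Not at hc
        have := mul_pos hc hA
        linarith
      have h1 : F.p l * (yA + yB) ≤ 0 := mul_nonpos_of_nonpos_of_nonneg hp (by linarith)
      have h2 : F.x (Sum.inr l) l = 0 := by linarith
      rw [h2, add_zero] at hcons
      by_cases hS : l ∈ S
      · rw [if_pos hS]
        have := hz1 l
        linarith
      · rw [if_neg hS]
        simp only [S, mem_filter, mem_univ, true_and, not_lt] at hS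
        linarith
  calc -(n * (3 * dd n - 1) + (S.card : ℝ))
      = ∑ l : Fin n, -((3 * (dd n : ℝ) - 1) + (if l ∈ S then 1 else 0)) := by
        rw [sum_neg_distrib, sum_add_distrib, sum_const, card_univ, Fintype.card_fin,
          nsmul_eq_mul, sum_ite_mem, univ_inter, sum_const, nsmul_eq_mul, mul_one]
    _ ≤ _ := sum_le_sum fun l _ => key l

/-- the flow of an independent set: the pools of the set use the good inputs -/
noncomputable def outFlow (S : Finset (Fin n)) : OFlow n where
  x i l := match i with
    | Sum.inl q => if l = q.1 ∨ l = q.2 then (if l ∈ S then 1 else 0) else 0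
    | Sum.inr k => if k = l then (if l ∈ S then 0 else 3 * (dd n : ℝ) - 1) else 0
  y l j := match j with
    | Sum.inl k => if k = l then (if l ∈ S then (dd n : ℝ) else 0) else 0
    | Sum.inr k => if k = l then (if l ∈ S then 0 else 3 * (dd n : ℝ) - 1) else 0
  p l := if l ∈ S then 0 else 1

theorem out_sumy (S : Finset (Fin n)) (l : Fin n) :
    ∑ j, (outFlow S).y l j = if l ∈ S then (dd n : ℝ) else 3 * dd n - 1 := by
  rw [Fintype.sum_sum_type, sum_one l, sum_one l]
  · simp only [outFlow, if_true]
    split_ifs <;> ring
  · intro k hk
    simp [outFlow, hk]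
  · intro k hk
    simp [outFlow, hk]

theorem out_good (S : Finset (Fin n)) (l : Fin n) :
    ∑ q : Fin n × Fin n, (outFlow S).x (Sum.inl q) l = if l ∈ S then (dd n : ℝ) else 0 := by
  simp only [outFlow]
  rw [sum_adj l (if l ∈ S then (1 : ℝ) else 0)]
  split_ifs <;> ring

theorem out_bad (S : Finset (Fin n)) (l : Fin n) :
    ∑ k : Fin n, (outFlow S).x (Sum.inr k) l = if l ∈ S then (0 : ℝ) else 3 * dd n - 1 := by
  rw [sum_one l]
  · simp [outFlow]
  · intro k hk
    simp [outFlow, hk]

theorem out_feasible (S : Finset (Fin n)) (hS : Free n conf S) :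
    Feasible (outData n conf) (outFlow S) := by
  classical
  have hD : ∀ l : Fin n, (1 : ℝ) ≤ dd n := fun l => by exact_mod_cast dd_pos l
  have hcast : ∀ l : Fin n, ((3 * dd n - 1 : ℕ) : ℝ) = 3 * dd n - 1 := by
    intro l
    rw [Nat.cast_sub (by have := dd_pos l; omega)]
    push_cast
    ring
  constructor
  · intro i l
    rcases i with q | k
    · simp only [outFlow, outData]
      by_cases hq : l = q.1 ∨ l = q.2
      · simp only [if_pos hq, arcCap]
        split_ifs <;> norm_num
      · simp [if_neg hq, arcCap]
    · simp only [outFlow, outData]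
      by_cases hk : k = l
      · simp only [if_pos hk, arcCap]
        rw [Rat.cast_natCast, hcast l]
        have := hD l
        split_ifs <;> constructor <;> linarith
      · simp [if_neg hk, arcCap]
  · intro l j
    rcases j with k | k
    · simp only [outFlow, outData]
      by_cases hk : k = l
      · simp only [if_pos hk, arcCap]
        rw [Rat.cast_natCast]
        have := hD l
        split_ifs <;> constructor <;> linarith
      · simp [if_neg hk, arcCap]
    · simp only [outFlow, outData]
      by_cases hk : k = l
      · simp only [if_pos hk, arcCap]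
        rw [Rat.cast_natCast, hcast l]
        have := hD l
        split_ifs <;> constructor <;> linarith
      · simp [if_neg hk, arcCap]
  · intro l
    rw [out_sumy, Fintype.sum_sum_type, out_good, out_bad]
    split_ifs <;> ring
  · intro i
    rcases i with q | k
    · simp only [outFlow, outData]
      by_cases hc : conf q.1 q.2 = true
      · rw [if_pos hc]
        have hle : ∑ l : Fin n, (if l = q.1 ∨ l = q.2 then (if l ∈ S then (1 : ℝ) else 0) else 0) ≤
            ∑ l : Fin n, ((if l = q.1 then (if q.1 ∈ S then (1 : ℝ) else 0) else 0) +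
              (if l = q.2 then (if q.2 ∈ S then (1 : ℝ) else 0) else 0)) := by
          refine sum_le_sum fun l _ => ?_
          by_cases g1 : l = q.1
          · by_cases g2 : l = q.2
            · subst g1
              simp only [true_or, if_true]
              split_ifs <;> norm_num
            · subst g1
              simp only [true_or, if_true, if_neg g2, add_zero]
              exact le_rfl
          · by_cases g2 : l = q.2
            · subst g2
              simp only [or_true, if_true, if_neg g1, zero_add]
              exact le_rfl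
            · simp [g1, g2]
        refine hle.trans ?_
        rw [sum_add_distrib, sum_ite_eq' univ q.1 (fun _ => if q.1 ∈ S then (1 : ℝ) else 0),
          sum_ite_eq' univ q.2 (fun _ => if q.2 ∈ S then (1 : ℝ) else 0)]
        simp only [mem_univ, if_true]
        by_cases g1 : q.1 ∈ S
        · by_cases g2 : q.2 ∈ S
          · have := hS _ g1 _ g2
            rw [hc] at this
            exact absurd this (by simp)
          · simp [g1, g2]
        · by_cases g2 : q.2 ∈ S
          · simp [g1, g2]
          · simp [g1, g2]
      · rw [if_neg hc]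
        calc ∑ l : Fin n, (if l = q.1 ∨ l = q.2 then (if l ∈ S then (1 : ℝ) else 0) else 0)
            ≤ ∑ l : Fin n, ((if l = q.1 then (1 : ℝ) else 0) + (if l = q.2 then (1 : ℝ) else 0)) := by
              refine sum_le_sum fun l _ => ?_
              split_ifs
              all_goals first | (norm_num; done) | (exfalso; tauto)
          _ ≤ _ := by
              rw [sum_add_distrib, sum_ite_eq' univ q.1 (fun _ => (1 : ℝ)),
                sum_ite_eq' univ q.2 (fun _ => (1 : ℝ))]
              simp only [mem_univ, if_true]
              norm_num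
    · simp only [outData]
      have h1 : ∑ l, (outFlow S).x (Sum.inr k) l = (outFlow S).x (Sum.inr k) k := by
        rw [sum_one k]
        intro l hl
        simp [outFlow, Ne.symm hl]
      rw [h1]
      simp only [outFlow, if_true]
      have := hD k
      push_cast
      split_ifs <;> linarith
  · intro l
    rw [Fintype.sum_sum_type, out_good, out_bad]
    simp only [outData]
    have := hD l
    push_cast
    split_ifs <;> linarith
  · intro j
    rcases j with k | k
    · have h1 : ∑ l, (outFlow S).y l (Sum.inl k) = (outFlow S).y k (Sum.inl k) := by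
        rw [sum_one k]
        intro l hl
        simp [outFlow, Ne.symm hl]
      rw [h1]
      simp only [outFlow, outData, if_true]
      have := hD k
      push_cast
      split_ifs <;> linarith
    · have h1 : ∑ l, (outFlow S).y l (Sum.inr k) = (outFlow S).y k (Sum.inr k) := by
        rw [sum_one k]
        intro l hl
        simp [outFlow, Ne.symm hl]
      rw [h1]
      simp only [outFlow, outData, if_true]
      have := hD k
      push_cast
      split_ifs <;> linarith
  · intro l
    rw [out_sumy, Fintype.sum_sum_type]
    have h1 : ∑ q : Fin n × Fin n, (((outData n conf).lam (Sum.inl q) : ℚ) : ℝ) *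
        (outFlow S).x (Sum.inl q) l = 0 := by
      refine sum_eq_zero fun q _ => ?_
      simp [outData]
    have h2 : ∑ k : Fin n, (((outData n conf).lam (Sum.inr k) : ℚ) : ℝ) *
        (outFlow S).x (Sum.inr k) l = ∑ k : Fin n, (outFlow S).x (Sum.inr k) l := by
      refine sum_congr rfl fun k _ => ?_
      simp [outData]
    rw [h1, h2, out_bad]
    simp only [outFlow]
    split_ifs <;> ring
  · intro j
    rcases j with k | k
    · simp only [outFlow, outData]
      rw [Rat.cast_zero, zero_mul]
      refine le_of_eq (sum_eq_zero fun l _ => ?_)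
      split_ifs <;> simp
    · simp only [outData, mul_sum]
      refine sum_le_sum fun l _ => ?_
      have h1 : 0 ≤ (outFlow S).y l (Sum.inr k) := by
        simp only [outFlow]
        have := hD l
        split_ifs <;> linarith
      refine mul_le_mul_of_nonneg_right ?_ h1
      simp only [outFlow]
      push_cast
      split_ifs <;> norm_num

theorem out_cost_flow (S : Finset (Fin n)) (hS : Free n conf S) :
    cost (outData n conf) (outFlow S) = -(n * (3 * dd n - 1) + (S.card : ℝ)) := by
  classical
  rw [out_cost (out_feasible S hS)]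
  have : ∀ l, -(3 * (outFlow S).y l (Sum.inl l) + (outFlow S).y l (Sum.inr l)) =
      -((3 * (dd n : ℝ) - 1) + (if l ∈ S then 1 else 0)) := by
    intro l
    simp only [outFlow, if_true]
    split_ifs <;> ring
  rw [sum_congr rfl fun l _ => this l, sum_neg_distrib, sum_add_distrib, sum_const, card_univ,
    Fintype.card_fin, nsmul_eq_mul, sum_ite_mem, univ_inter, sum_const, nsmul_eq_mul, mul_one]

end Pool.Agent.R531.Pooling
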