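import Mathlib
import Pool.Agent.R531.Pooling.OutTwo
import Pool.Agent.R542.Base
import Pool.Agent.H671R2.PolyAuto

/-!
# The reductions are computable in polynomial time
-/

set_option autoImplicit false

namespace Pool.Agent.R531.Pooling

open Finset Pool.Agent.NPC Pool.Agent.NPC.R542 Pool.Agent.H692R2

/-! ### Lists of values -/

theorem ofFn_eq_range {β : Type} (N : ℕ) (f : ℕ → β) :
    (List.ofFn fun i : Fin N => f i) = (List.range N).map f := by
  rw [List.ofFn_eq_map, ← List.map_coe_finRange_eq_range, List.map_map]
  rfl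

/-- the numbering of a sum of two numbered sets -/
theorem ofFn_sum {β : Type} (a b : ℕ) (f : Fin a ⊕ Fin b → β) :
    (List.ofFn fun i : Fin (a + b) => f (finSumFinEquiv.symm i)) =
      (List.ofFn fun i => f (Sum.inl i)) ++ List.ofFn fun i => f (Sum.inr i) := by
  rw [List.ofFn_add]
  congr 1
  · congr 1
    funext i
    have : finSumFinEquiv.symm (Fin.castAdd b i) = Sum.inl i :=
      finSumFinEquiv_symm_apply_castAdd i
    exact congrArg f this
  · congr 1
    funext i
    have : finSumFinEquiv.symm (Fin.natAdd a i) = Sum.inr i :=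
      finSumFinEquiv_symm_apply_natAdd i
    exact congrArg f this

/-- the numbering of a product of two numbered sets -/
theorem ofFn_prod {β : Type} (a b : ℕ) (f : Fin a × Fin b → β) :
    (List.ofFn fun i : Fin (a * b) => f (finProdFinEquiv.symm i)) =
      (List.ofFn fun i => List.ofFn fun j => f (i, j)).flatten := by
  rw [List.ofFn_mul]
  congr 2
  funext i
  congr 1
  funext j
  congr 1
  rw [Equiv.symm_apply_eq]
  apply Fin.ext
  simp only [finProdFinEquiv_apply_val]
  ring

/-! ### Numbers -/

theorem poly_natInt {α : Type} [TEnc α] {f : α → ℕ} (hf : Poly f) :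
    Poly (fun a => ((f a : ℕ) : ℤ)) := Poly.natCast_int hf

theorem poly_natRat {α : Type} [TEnc α] {f : α → ℕ} (hf : Poly f) :
    Poly (fun a => ((f a : ℕ) : ℚ)) :=
  Poly.of_toT ((Poly.toT' (Poly.pair (poly_natInt hf) (NPC.Poly.const (1 : ℕ)))).congr fun a => by
    change toT (((f a : ℕ) : ℤ), (1 : ℕ)) = toT ((((f a : ℕ) : ℚ)).num, (((f a : ℕ) : ℚ)).den)
    rw [Rat.num_natCast, Rat.den_natCast])

theorem poly_negNatRat {α : Type} [TEnc α] {f : α → ℕ} (hf : Poly f) :
    Poly (fun a => -((f a : ℕ) : ℚ)) :=
  Poly.of_toT ((Poly.toT' (Poly.pair (Poly.pair (Poly.decide_lt (NPC.Poly.const 0) hf) hf)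
      (NPC.Poly.const (1 : ℕ)))).congr fun a => by
    change toT ((decide (0 < f a), f a), (1 : ℕ)) =
      toT ((decide ((-((f a : ℕ) : ℚ)).num < 0), (-((f a : ℕ) : ℚ)).num.natAbs),
        (-((f a : ℕ) : ℚ)).den)
    have h1 : (-((f a : ℕ) : ℚ)).num = -(f a : ℤ) := by rw [Rat.num_neg_eq_neg_num, Rat.num_natCast]
    have h2 : (-((f a : ℕ) : ℚ)).den = 1 := by rw [Rat.neg_den, Rat.den_natCast]
    rw [h1, h2]
    have h3 : decide (-(f a : ℤ) < 0) = decide (0 < f a) := by
      rw [decide_eq_decide]
      omega
    rw [h3]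
    simp)

/-! ### The instances -/

/-- conflicts are adjacencies -/
noncomputable def cf (G : FinGraph) (i j : Fin G.n) : Bool := adjB G i j

theorem cf_irrefl (G : FinGraph) (i : Fin G.n) : cf G i i = false := adjB_self G i i.2

/-- the instance with in-degree two -/
noncomputable def inInst (G : FinGraph) : Instance where
  nI := 2
  nL := G.n
  nJ := G.n + G.n * G.n
  data := (inData G.n (cf G)).reindex finTwoEquiv (Equiv.refl _)
    (finSumFinEquiv.symm.trans (Equiv.sumCongr (Equiv.refl _) finProdFinEquiv.symm))

/-- the instance with out-degree two -/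
noncomputable def outInst (G : FinGraph) : Instance where
  nI := G.n * G.n + G.n
  nL := G.n
  nJ := G.n + G.n
  data := (outData G.n (cf G)).reindex
    (finSumFinEquiv.symm.trans (Equiv.sumCongr finProdFinEquiv.symm (Equiv.refl _)))
    (Equiv.refl _) finSumFinEquiv.symm

/-! ### Computability -/

/-- the numbers of the vertices -/
noncomputable def rg (G : FinGraph) : List ℕ := List.range G.n

section

variable {α : Type} [TEnc α]

@[fun_prop] theorem poly_rg {G : α → FinGraph} (hG : Poly G) : Poly (fun a => rg (G a)) :=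
  UPoly.range (upoly_n hG)

@[fun_prop] theorem poly_gn {G : α → FinGraph} (hG : Poly G) : Poly (fun a => (G a).n) :=
  poly_n hG

@[fun_prop] theorem poly_dd {f : α → ℕ} (hf : Poly f) : Poly (fun a => dd (f a)) := by
  unfold dd
  fun_prop

@[fun_prop] theorem poly_adj {G : α → FinGraph} {i j : α → ℕ} (hG : Poly G)
    (hi : Poly i) (hj : Poly j) : Poly (fun a => adjB (G a) (i a) (j a)) := poly_adjB hG hi hj

attribute [local fun_prop] poly_natRat poly_negNatRat

/-- the strict outputs -/
noncomputable def eA (G : FinGraph) (l i : ℕ) : Option (ℚ × ℚ) :=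
  if i = l then some (-2, ((2 * dd G.n - 1 : ℕ) : ℚ)) else none

/-- the outputs of pairs -/
noncomputable def eB (l i j : ℕ) : Option (ℚ × ℚ) :=
  if l = i ∨ l = j then some (-1, 2) else none

/-- the large number -/
noncomputable def bg (G : FinGraph) : ℚ := ((4 * dd G.n * G.n : ℕ) : ℚ)

@[fun_prop] theorem poly_bg {G : α → FinGraph} (hG : Poly G) : Poly (fun a => bg (G a)) := by
  unfold bg
  fun_prop

@[fun_prop] theorem poly_eA {G : α → FinGraph} {l i : α → ℕ} (hG : Poly G) (hl : Poly l)
    (hi : Poly i) : Poly (fun a => eA (G a) (l a) (i a)) := by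
  unfold eA
  fun_prop

@[fun_prop] theorem poly_eB {l i j : α → ℕ} (hl : Poly l)
    (hi : Poly i) (hj : Poly j) : Poly (fun a => eB (l a) (i a) (j a)) := by
  unfold eB
  fun_prop

theorem inInst_lists (G : FinGraph) : (inInst G).lists =
    (([(rg G).map fun _ => some (1, bg G), (rg G).map fun _ => some (0, bg G)],
      (rg G).map fun l => ((rg G).map fun i => eA G l i) ++
        ((rg G).map fun i => (rg G).map fun j => eB l i j).flatten),
     (([bg G, bg G], (rg G).map fun _ => bg G,
        ((rg G).map fun _ => bg G) ++ ((rg G).map fun _ => (rg G).map fun _ => bg G).flatten),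
      ([0, 2], ((rg G).map fun _ => 0) ++
        ((rg G).map fun i => (rg G).map fun j => bif adjB G i j then 1 else 2).flatten))) := by
  unfold Instance.lists rg
  simp only [← ofFn_eq_range]
  have e0 : (List.ofFn fun i : Fin 2 => List.ofFn fun l => (inInst G).data.arcI i l) =
      [List.ofFn fun _ : Fin G.n => some (1, bg G), List.ofFn fun _ : Fin G.n => some (0, bg G)] := by
    simp only [List.ofFn_succ, List.ofFn_zero]
    rfl
  have key : ∀ {β : Type} (f : Fin G.n ⊕ Fin G.n × Fin G.n → β),
      (List.ofFn fun i : Fin (G.n + G.n * G.n) =>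
        f ((finSumFinEquiv.symm.trans (Equiv.sumCongr (Equiv.refl _) finProdFinEquiv.symm)) i)) =
      (List.ofFn fun i => f (Sum.inl i)) ++
        (List.ofFn fun i => List.ofFn fun j => f (Sum.inr (i, j))).flatten := by
    intro β f
    have h1 := ofFn_sum G.n (G.n * G.n)
      (fun s => f (Equiv.sumCongr (Equiv.refl _) finProdFinEquiv.symm s))
    have h2 := ofFn_prod G.n G.n (fun q => f (Sum.inr q))
    rw [← h2]
    exact h1
  refine Prod.ext (Prod.ext ?_ ?_) (Prod.ext (Prod.ext ?_ (Prod.ext ?_ ?_)) (Prod.ext ?_ ?_))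
  · exact e0
  · change (List.ofFn fun l => List.ofFn fun j => (inInst G).data.arcJ l j) = _
    congr 1
    funext l
    refine (key (fun s => (inData G.n (cf G)).arcJ l s)).trans ?_
    congr 1
    · congr 1
      funext i
      simp only [inData, eA, Fin.ext_iff]
    · congr 2
      funext i
      congr 1
      funext j
      simp only [inData, eB, Fin.ext_iff]
  · change (List.ofFn fun i : Fin 2 => (inInst G).data.capI i) = _
    simp only [List.ofFn_succ, List.ofFn_zero]
    rfl
  · rfl
  · exact key (fun s => (inData G.n (cf G)).capJ s)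
  · change (List.ofFn fun i : Fin 2 => (inInst G).data.lam i) = _
    simp only [List.ofFn_succ, List.ofFn_zero]
    rfl
  · refine (key (fun s => (inData G.n (cf G)).mu s)).trans ?_
    congr 1
    congr 2
    funext i
    congr 1
    funext j
    simp only [inData, cf]
    exact (Bool.cond_eq_ite _ _ _).symm

theorem poly_inInst : Poly inInst := by
  have h : Poly (fun G : FinGraph => (inInst G).lists) := by
    refine NPC.Poly.congr (f := fun G : FinGraph => _) ?_ (fun G => (inInst_lists G).symm)
    fun_prop
  exact h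

/-- the good inputs -/
noncomputable def gA (l i j : ℕ) : Option (ℚ × ℚ) :=
  if l = i ∨ l = j then some (0, 1) else none

/-- arcs that join equal numbers -/
noncomputable def gD (c u : ℚ) (l i : ℕ) : Option (ℚ × ℚ) := if i = l then some (c, u) else none

@[fun_prop] theorem poly_gA {l i j : α → ℕ} (hl : Poly l)
    (hi : Poly i) (hj : Poly j) : Poly (fun a => gA (l a) (i a) (j a)) := by
  unfold gA
  fun_prop

@[fun_prop] theorem poly_gD {c u : α → ℚ} {l i : α → ℕ} (hc : Poly c) (hu : Poly u) (hl : Poly l)
    (hi : Poly i) : Poly (fun a => gD (c a) (u a) (l a) (i a)) := by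
  unfold gD
  fun_prop

/-- three times the degree, minus one -/
noncomputable def wn (G : FinGraph) : ℚ := ((3 * dd G.n - 1 : ℕ) : ℚ)

/-- four times the degree -/
noncomputable def w4 (G : FinGraph) : ℚ := ((4 * dd G.n : ℕ) : ℚ)

/-- the degree -/
noncomputable def w1 (G : FinGraph) : ℚ := (dd G.n : ℚ)

@[fun_prop] theorem poly_wn {G : α → FinGraph} (hG : Poly G) : Poly (fun a => wn (G a)) := by
  unfold wn
  fun_prop

@[fun_prop] theorem poly_w4 {G : α → FinGraph} (hG : Poly G) : Poly (fun a => w4 (G a)) := by
  unfold w4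
  fun_prop

@[fun_prop] theorem poly_w1 {G : α → FinGraph} (hG : Poly G) : Poly (fun a => w1 (G a)) := by
  unfold w1
  fun_prop

theorem outInst_lists (G : FinGraph) : (outInst G).lists =
    ((((rg G).map fun i => (rg G).map fun j => (rg G).map fun l => gA l i j).flatten ++
        (rg G).map fun k => (rg G).map fun l => gD 0 (wn G) l k,
      (rg G).map fun l => ((rg G).map fun i => gD (-3) (w1 G) l i) ++
        (rg G).map fun i => gD (-1) (wn G) l i),
     ((((rg G).map fun i => (rg G).map fun j => bif adjB G i j then 1 else 2).flatten ++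
        (rg G).map fun _ => w4 G, (rg G).map fun _ => w4 G,
        ((rg G).map fun _ => w4 G) ++ (rg G).map fun _ => w4 G),
      (((rg G).map fun _ => (rg G).map fun _ => 0).flatten ++ (rg G).map fun _ => 1,
        ((rg G).map fun _ => 0) ++ (rg G).map fun _ => 1))) := by
  unfold Instance.lists rg
  simp only [← ofFn_eq_range]
  have key : ∀ {β : Type} (f : Fin G.n × Fin G.n ⊕ Fin G.n → β),
      (List.ofFn fun i : Fin (G.n * G.n + G.n) =>
        f ((finSumFinEquiv.symm.trans (Equiv.sumCongr finProdFinEquiv.symm (Equiv.refl _))) i)) =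
      (List.ofFn fun i => List.ofFn fun j => f (Sum.inl (i, j))).flatten ++
        (List.ofFn fun i => f (Sum.inr i)) := by
    intro β f
    have h1 := ofFn_sum (G.n * G.n) G.n
      (fun s => f (Equiv.sumCongr finProdFinEquiv.symm (Equiv.refl _) s))
    have h2 := ofFn_prod G.n G.n (fun q => f (Sum.inl q))
    rw [← h2]
    exact h1
  refine Prod.ext (Prod.ext ?_ ?_) (Prod.ext (Prod.ext ?_ (Prod.ext ?_ ?_)) (Prod.ext ?_ ?_))
  · refine (key (fun s => List.ofFn fun l => (outData G.n (cf G)).arcI s l)).trans ?_
    congr 1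
    · congr 2
      funext i
      congr 1
      funext j
      congr 1
      funext l
      simp only [outData, gA, Fin.ext_iff]
    · congr 1
      funext k
      congr 1
      funext l
      simp only [outData, gD, wn, Fin.ext_iff]
  · change (List.ofFn fun l => List.ofFn fun j => (outInst G).data.arcJ l j) = _
    congr 1
    funext l
    refine (ofFn_sum G.n G.n (fun s => (outData G.n (cf G)).arcJ l s)).trans ?_
    congr 1
    · congr 1
      funext i
      simp only [outData, gD, w1, Fin.ext_iff]
    · congr 1
      funext i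
      simp only [outData, gD, wn, Fin.ext_iff]
  · refine (key (fun s => (outData G.n (cf G)).capI s)).trans ?_
    congr 1
    congr 2
    funext i
    congr 1
    funext j
    simp only [outData, cf]
    exact (Bool.cond_eq_ite _ _ _).symm
  · rfl
  · exact ofFn_sum G.n G.n (fun s => (outData G.n (cf G)).capJ s)
  · exact key (fun s => (outData G.n (cf G)).lam s)
  · exact ofFn_sum G.n G.n (fun s => (outData G.n (cf G)).mu s)

theorem poly_outInst : Poly outInst := by
  have h : Poly (fun G : FinGraph => (outInst G).lists) := by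
    refine NPC.Poly.congr (f := fun G : FinGraph => _) ?_ (fun G => (outInst_lists G).symm)
    fun_prop
  exact h

end

end Pool.Agent.R531.Pooling
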