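import Mathlib
import Pool.Agent.R531.Pooling.Code
import Pool.Agent.H578R2.Med.NPClos
import Pool.Agent.NPC.Classes

/-!
# Hardness of the pooling problem
-/

set_option autoImplicit false

namespace Pool.Agent.R531.Pooling

open Finset Pool.Agent.NPC Pool.Agent.NPC.R542 Pool.Agent.H692R2

/-- what the reductions satisfy -/
structure Works (inst : FinGraph → Instance) (base : ℕ → ℕ) : Prop where
  poly : Poly inst
  attain : ∀ (G : FinGraph) (S : Finset (Fin G.n)), Free G.n (cf G) S →
    ∃ F, Feasible (inst G).data F ∧ cost (inst G).data F = -((base G.n + S.card : ℕ) : ℝ)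
  lower : ∀ (G : FinGraph) F, Feasible (inst G).data F →
    ∃ S : Finset (Fin G.n), Free G.n (cf G) S ∧
      -((base G.n + S.card : ℕ) : ℝ) ≤ cost (inst G).data F

theorem free_iff (G : FinGraph) (S : Finset (Fin G.n)) :
    Free G.n (cf G) S ↔ G.graph.IsIndepSet S := by
  constructor
  · intro h i hi j hj _ hadj
    have h1 := h i hi j hj
    have h2 := (adjB_iff G i j).2 hadj
    unfold cf at h1
    rw [h1] at h2
    exact absurd h2 (by simp)
  · intro h i hi j hj
    by_contra hc
    rw [Bool.not_eq_false] at hc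
    have hadj := (adjB_iff G i j).1 hc
    exact h hi hj hadj.ne hadj

/-- there is a largest independent set -/
theorem exists_max (G : FinGraph) : ∃ S : Finset (Fin G.n), Free G.n (cf G) S ∧
    ∀ T, Free G.n (cf G) T → T.card ≤ S.card := by
  classical
  obtain ⟨S, hS, hmax⟩ := exists_max_image
    (univ.filter fun S : Finset (Fin G.n) => Free G.n (cf G) S) (fun S => S.card)
    ⟨∅, by simp [Free]⟩
  rw [mem_filter] at hS
  exact ⟨S, hS.2, fun T hT => hmax T (by rw [mem_filter]; exact ⟨mem_univ _, hT⟩)⟩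

variable {inst : FinGraph → Instance} {base : ℕ → ℕ}

theorem Works.optimum (h : Works inst base) (G : FinGraph) (S : Finset (Fin G.n))
    (hS : Free G.n (cf G) S) (hmax : ∀ T, Free G.n (cf G) T → T.card ≤ S.card) :
    IsOptimum (inst G) (-((base G.n + S.card : ℕ) : ℚ)) := by
  have hc : ((-((base G.n + S.card : ℕ) : ℚ) : ℚ) : ℝ) = -((base G.n + S.card : ℕ) : ℝ) := by
    push_cast
    ring
  unfold IsOptimum
  rw [hc]
  refine ⟨h.attain G S hS, ?_⟩
  rintro c ⟨F, hF, rfl⟩
  obtain ⟨T, hT, hle⟩ := h.lower G F hF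
  refine le_trans ?_ hle
  have : ((base G.n + T.card : ℕ) : ℝ) ≤ ((base G.n + S.card : ℕ) : ℝ) := by
    exact_mod_cast Nat.add_le_add_left (hmax T hT) _
  linarith

theorem Works.decision (h : Works inst base) (G : FinGraph) (k : ℕ) (hb : Bounded (G, k)) :
    HasIndep (G, k) ↔ ∃ F, Feasible (inst G).data F ∧
      cost (inst G).data F ≤ ((-((base G.n + k : ℕ) : ℚ) : ℚ) : ℝ) := by
  have hc : ((-((base G.n + k : ℕ) : ℚ) : ℚ) : ℝ) = -((base G.n + k : ℕ) : ℝ) := by
    push_cast
    ring
  rw [hc]
  constructor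
  · rintro ⟨S, hS, hk⟩
    obtain ⟨F, hF, hcost⟩ := h.attain G S ((free_iff G S).2 hS)
    refine ⟨F, hF, ?_⟩
    rw [hcost]
    simp only at hk
    rw [hk]
  · rintro ⟨F, hF, hle⟩
    obtain ⟨S, hS, hl⟩ := h.lower G F hF
    have h1 : ((base G.n + k : ℕ) : ℝ) ≤ ((base G.n + S.card : ℕ) : ℝ) := by linarith
    have h2 : base G.n + k ≤ base G.n + S.card := by exact_mod_cast h1
    have h3 := hb S ((free_iff G S).1 hS)
    simp only at h3
    exact ⟨S, (free_iff G S).1 hS, by simp only; omega⟩

/-- **Hardness.** `C` is a class of instances that contains all instances of the reduction, and `D`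
is a property of pairs of instances and thresholds that all pairs of the reduction have. -/
theorem Works.hard (h : Works inst base) (hb : Poly (fun G : FinGraph => base G.n))
    {C : Instance → Prop} (hC : ∀ G, C (inst G)) {D : Instance → ℚ → Prop}
    (hD : ∀ (G : FinGraph) (k : ℕ), G.n = 3 * k → D (inst G) (-((base G.n + k : ℕ) : ℚ))) :
    (∀ L : Set (List Bool), InNP L → ∃ f : List Bool → Instance × ℚ,
      PolyTime (fun w => bits (f w)) ∧ ∀ w, C (f w).1 ∧ D (f w).1 (f w).2 ∧
        (w ∈ L ↔ ∃ F, Feasible (f w).1.data F ∧ cost (f w).1.data F ≤ ((f w).2 : ℝ))) ∧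
    ∀ A : List Bool → List Bool, PolyTime A →
      (∀ P, C P → ∀ v : ℚ, IsOptimum P v → A (bits P) = bits v) →
      ∀ L : Set (List Bool), InNP L → InP L := by
  have hpoly : Poly (fun I : FinGraph × ℕ =>
      ((inst I.1, -((base I.1.n + I.2 : ℕ) : ℚ)) : Instance × ℚ)) := by
    refine NPC.Poly.pair (h.poly.comp (NPC.Poly.fst NPC.Poly.id)) (poly_negNatRat ?_)
    exact NPC.Poly.add (hb.comp (NPC.Poly.fst NPC.Poly.id)) (NPC.Poly.snd NPC.Poly.id)
  constructor
  · intro L hL
    obtain ⟨g, hg, hpr, hgL⟩ := hardPr_indep L hL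
    have hcomp : PC (id : List Bool → List Bool) (bits : Instance × ℚ → List Bool)
        (fun w => (inst (g w).1, -((base (g w).1.n + (g w).2 : ℕ) : ℚ))) :=
      PC.comp (g := fun I : FinGraph × ℕ =>
        ((inst I.1, -((base I.1.n + I.2 : ℕ) : ℚ)) : Instance × ℚ)) (f := g) hpoly hg
    refine ⟨fun w => (inst (g w).1, -((base (g w).1.n + (g w).2 : ℕ) : ℚ)),
      PC.toPolyTime hcomp, fun w => ⟨hC _, hD _ _ (hpr w).2, ?_⟩⟩
    rw [hgL w]
    exact h.decision (g w).1 (g w).2 (hpr w).1
  · intro A hA hopt L hL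
    obtain ⟨g, hg, hpr, hgL⟩ := hardPr_indep L hL
    have hA' : Poly A := Pool.Agent.NPC.Med.poly_of_polyTime hA
    have hbits : ∀ {β : Type} [TEnc β], Poly (fun b : β => bits b) :=
      fun {β} _ => Pool.Agent.NPC.Med.poly_bits
    let t : FinGraph × ℕ → Bool := fun I =>
      decide (A (bits (inst I.1)) = bits (-((base I.1.n + I.2 : ℕ) : ℚ)))
    have ht : Poly t := by
      refine NPC.Poly.decide_eq (hA'.comp (hbits.comp (h.poly.comp
        (NPC.Poly.fst NPC.Poly.id)))) (hbits.comp ?_)
      exact NPC.Poly.snd (f := fun I : FinGraph × ℕ =>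
        ((inst I.1, -((base I.1.n + I.2 : ℕ) : ℚ)) : Instance × ℚ)) hpoly
    have hout : Poly (fun I => [t I]) := NPC.Poly.cons ht (NPC.Poly.const [])
    have hraw : PC (fun x : List Bool => x) (bits : List Bool → List Bool)
        (fun w => [t (g w)]) := PC.comp (g := fun I => [t I]) (f := g) hout hg
    have hfin : PC (fun x : List Bool => x) (fun x : List Bool => x) (fun w => [t (g w)]) :=
      PC.comp (g := fun x : List Bool => x) (f := fun w => [t (g w)]) Cnt.pc_raw hraw
    refine ⟨fun w => [t (g w)], PC.toPolyTime hfin, fun w => ?_⟩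
    obtain ⟨S, hS, hmax⟩ := exists_max (g w).1
    have h1 := hopt _ (hC (g w).1) _ (h.optimum (g w).1 S hS hmax)
    have h2 : HasIndep (g w) ↔ S.card = (g w).2 := by
      constructor
      · rintro ⟨T, hT, hk⟩
        have h3 := hmax T ((free_iff _ T).2 hT)
        have h4 := (hpr w).1 S ((free_iff _ S).1 hS)
        omega
      · intro hk
        exact ⟨S, (free_iff _ S).1 hS, hk⟩
    rw [hgL w, h2]
    simp only [t, List.cons.injEq, and_true, decide_eq_true_eq]
    rw [h1, bits_injective.eq_iff, neg_inj, Nat.cast_inj, Nat.add_left_cancel_iff]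

theorem isSmall_nat {B m : ℕ} (h : m ≤ B) : IsSmall B (m : ℚ) :=
  ⟨m, by push_cast; rfl, by rw [Nat.abs_cast]; exact_mod_cast h⟩

theorem isSmall_int {B : ℕ} (z : ℤ) (h : |z| ≤ B) : IsSmall B (z : ℚ) := ⟨z, rfl, h⟩

/-! ### In-degree two -/

theorem inWorks : Works inInst (fun n => n * (2 * dd n - 1)) where
  poly := poly_inInst
  attain G S hS := by
    have h1 : cost (inInst G).data
        ((inFlow S).reindex finTwoEquiv (Equiv.refl _)
          (finSumFinEquiv.symm.trans (Equiv.sumCongr (Equiv.refl _) finProdFinEquiv.symm))) =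
        cost (inData G.n (cf G)) (inFlow S) := cost_reindex _ _ _ _ _
    refine ⟨_, (in_feasible S hS (cf_irrefl G)).reindex _ _ _, ?_⟩
    refine h1.trans ((in_cost_flow S hS (cf_irrefl G)).trans ?_)
    rcases Nat.eq_zero_or_pos G.n with h0 | hpos
    · simp [h0]
    · have h2 : 1 ≤ 2 * dd G.n := by
        unfold dd
        omega
      rw [Nat.cast_add, Nat.cast_mul, Nat.cast_sub h2]
      push_cast
      ring
  lower G F hF := by
    have h0 := costs_reindex (inData G.n (cf G)) finTwoEquiv (Equiv.refl (Fin G.n))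
      (finSumFinEquiv.symm.trans (Equiv.sumCongr (Equiv.refl _) finProdFinEquiv.symm))
    have h1 : cost (inInst G).data F ∈
        {c : ℝ | ∃ F, Feasible (inData G.n (cf G)) F ∧ cost (inData G.n (cf G)) F = c} := by
      rw [← h0]
      exact ⟨F, hF, rfl⟩
    obtain ⟨F', hF', hc⟩ := h1
    obtain ⟨S, hS, hle⟩ := in_lower hF' (cf_irrefl G)
    refine ⟨S, hS, ?_⟩
    rw [← hc]
    refine le_trans (le_of_eq ?_) hle
    rcases Nat.eq_zero_or_pos G.n with h0 | hpos
    · simp [h0]
    · have h2 : 1 ≤ 2 * dd G.n := by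
        unfold dd
        omega
      rw [Nat.cast_add, Nat.cast_mul, Nat.cast_sub h2]
      push_cast
      ring

theorem inInst_inDegree (G : FinGraph) : InDegreeTwo (inInst G) := by
  classical
  constructor
  · intro l
    refine (card_filter_le _ _).trans ?_
    rw [card_univ]
    exact le_of_eq (Fintype.card_fin 2)
  · intro j
    let g : Fin (G.n + G.n * G.n) ≃ Fin G.n ⊕ Fin G.n × Fin G.n :=
      finSumFinEquiv.symm.trans (Equiv.sumCongr (Equiv.refl _) finProdFinEquiv.symm)
    change (univ.filter fun l : Fin G.n =>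
      ((inData G.n (cf G)).arcJ l (g j)).isSome = true).card ≤ 2
    rcases g j with i | q
    · refine (card_le_card (t := {i}) ?_).trans (by simp)
      intro l hl
      rw [mem_filter] at hl
      have := hl.2
      simp only [inData] at this
      rw [mem_singleton]
      by_contra hne
      rw [if_neg (fun h : i = l => hne h.symm)] at this
      exact absurd this (by simp)
    · refine (card_le_card (t := {q.1, q.2}) ?_).trans card_le_two
      intro l hl
      rw [mem_filter] at hl
      have := hl.2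
      simp only [inData] at this
      rw [mem_insert, mem_singleton]
      by_contra hne
      rw [if_neg hne] at this
      exact absurd this (by simp)

theorem inInst_small (G : FinGraph) :
    SmallNumbers (inInst G) (8 * ((inInst G).nI + (inInst G).nL + (inInst G).nJ)) := by
  have hB : (inInst G).nI + (inInst G).nL + (inInst G).nJ = 2 + G.n + (G.n + G.n * G.n) := rfl
  rw [hB]
  have hd : dd G.n ≤ 2 * G.n := by unfold dd; omega
  have hQ : 4 * dd G.n * G.n ≤ 8 * (2 + G.n + (G.n + G.n * G.n)) := by
    have := Nat.mul_le_mul_right G.n hd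
    nlinarith
  have hM : 2 * dd G.n - 1 ≤ 8 * (2 + G.n + (G.n + G.n * G.n)) := by
    have : 0 ≤ G.n * G.n := Nat.zero_le _
    omega
  have s2 : (2 : ℤ) ≤ ((8 * (2 + G.n + (G.n + G.n * G.n)) : ℕ) : ℤ) := by
    have : 2 ≤ 8 * (2 + G.n + (G.n + G.n * G.n)) := by
      have : 0 ≤ G.n * G.n := Nat.zero_le _
      omega
    exact_mod_cast this
  have sm : ∀ z : ℤ, |z| ≤ 2 → IsSmall (8 * (2 + G.n + (G.n + G.n * G.n))) (z : ℚ) :=
    fun z hz => isSmall_int z (hz.trans s2)
  have n0 : IsSmall (8 * (2 + G.n + (G.n + G.n * G.n))) (0 : ℚ) := by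
    exact_mod_cast sm 0 (by norm_num)
  have n1 : IsSmall (8 * (2 + G.n + (G.n + G.n * G.n))) (1 : ℚ) := by
    exact_mod_cast sm 1 (by norm_num)
  have n2 : IsSmall (8 * (2 + G.n + (G.n + G.n * G.n))) (2 : ℚ) := by
    exact_mod_cast sm 2 (by norm_num)
  have m1 : IsSmall (8 * (2 + G.n + (G.n + G.n * G.n))) (-1 : ℚ) := by
    exact_mod_cast sm (-1) (by norm_num)
  have m2 : IsSmall (8 * (2 + G.n + (G.n + G.n * G.n))) (-2 : ℚ) := by
    exact_mod_cast sm (-2) (by norm_num)
  constructor
  · intro i l a ha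
    have : some (if finTwoEquiv i then (0 : ℚ) else 1, ((4 * dd G.n * G.n : ℕ) : ℚ)) = some a := ha
    rw [Option.some_inj] at this
    subst this
    refine ⟨?_, isSmall_nat hQ, Nat.cast_nonneg _⟩
    simp only
    split_ifs
    · exact n0
    · exact n1
  · intro l j a ha
    let g : Fin (G.n + G.n * G.n) ≃ Fin G.n ⊕ Fin G.n × Fin G.n :=
      finSumFinEquiv.symm.trans (Equiv.sumCongr (Equiv.refl _) finProdFinEquiv.symm)
    have ha' : (inData G.n (cf G)).arcJ l (g j) = some a := ha
    clear ha
    revert ha'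
    rcases g j with i | q <;> intro ha'
    · simp only [inData] at ha'
      split_ifs at ha' with hi
      rw [Option.some_inj] at ha'
      subst ha'
      exact ⟨m2, isSmall_nat hM, Nat.cast_nonneg _⟩
    · simp only [inData] at ha'
      split_ifs at ha' with hi
      rw [Option.some_inj] at ha'
      subst ha'
      exact ⟨m1, n2, by norm_num⟩
  · intro i
    exact ⟨isSmall_nat hQ, Nat.cast_nonneg _⟩
  · intro i
    exact ⟨isSmall_nat hQ, Nat.cast_nonneg _⟩
  · intro i
    exact ⟨isSmall_nat hQ, Nat.cast_nonneg _⟩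
  · intro i
    change IsSmall _ (if finTwoEquiv i then (2 : ℚ) else 0)
    split_ifs
    · exact n2
    · exact n0
  · intro j
    let g : Fin (G.n + G.n * G.n) ≃ Fin G.n ⊕ Fin G.n × Fin G.n :=
      finSumFinEquiv.symm.trans (Equiv.sumCongr (Equiv.refl _) finProdFinEquiv.symm)
    change IsSmall _ ((inData G.n (cf G)).mu (g j))
    rcases g j with i | q
    · exact n0
    · simp only [inData]
      split_ifs
      · exact n1
      · exact n2

theorem isSmall_neg {B m : ℕ} (h : m ≤ B) : IsSmall B (-(m : ℚ)) :=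
  ⟨-m, by push_cast; rfl, by rw [abs_neg, Nat.abs_cast]; exact_mod_cast h⟩

theorem inInst_threshold (G : FinGraph) (k : ℕ) (hk : G.n = 3 * k) :
    IsSmall (8 * ((inInst G).nI + (inInst G).nL + (inInst G).nJ))
      (-((G.n * (2 * dd G.n - 1) + k : ℕ) : ℚ)) := by
  have hB : (inInst G).nI + (inInst G).nL + (inInst G).nJ = 2 + G.n + (G.n + G.n * G.n) := rfl
  rw [hB]
  have hd : dd G.n ≤ 2 * G.n := by unfold dd; omega
  have h1 : G.n * (2 * dd G.n - 1) ≤ G.n * (4 * G.n) := Nat.mul_le_mul_left _ (by omega)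
  exact isSmall_neg (by nlinarith)

theorem poly_inBase : Poly (fun G : FinGraph => G.n * (2 * dd G.n - 1)) := by
  exact NPC.Poly.mul (poly_n NPC.Poly.id) (NPC.Poly.sub (NPC.Poly.mul (NPC.Poly.const 2)
    (poly_dd (poly_n NPC.Poly.id))) (NPC.Poly.const 1))

/-! ### Out-degree two -/

theorem outWorks : Works outInst (fun n => n * (3 * dd n - 1)) where
  poly := poly_outInst
  attain G S hS := by
    have h1 : cost (outInst G).data
        ((outFlow S).reindex
          (finSumFinEquiv.symm.trans (Equiv.sumCongr finProdFinEquiv.symm (Equiv.refl _)))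
          (Equiv.refl _) finSumFinEquiv.symm) =
        cost (outData G.n (cf G)) (outFlow S) := cost_reindex _ _ _ _ _
    refine ⟨_, (out_feasible S hS).reindex _ _ _, ?_⟩
    refine h1.trans ((out_cost_flow S hS).trans ?_)
    rcases Nat.eq_zero_or_pos G.n with h0 | hpos
    · simp [h0]
    · have h2 : 1 ≤ 3 * dd G.n := by
        unfold dd
        omega
      rw [Nat.cast_add, Nat.cast_mul, Nat.cast_sub h2]
      push_cast
      ring
  lower G F hF := by
    have h0 := costs_reindex (outData G.n (cf G))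
      (finSumFinEquiv.symm.trans (Equiv.sumCongr finProdFinEquiv.symm (Equiv.refl (Fin G.n))))
      (Equiv.refl (Fin G.n)) (finSumFinEquiv (m := G.n) (n := G.n)).symm
    have h1 : cost (outInst G).data F ∈
        {c : ℝ | ∃ F, Feasible (outData G.n (cf G)) F ∧ cost (outData G.n (cf G)) F = c} := by
      rw [← h0]
      exact ⟨F, hF, rfl⟩
    obtain ⟨F', hF', hc⟩ := h1
    obtain ⟨S, hS, hle⟩ := out_lower hF' (cf_irrefl G)
    refine ⟨S, hS, ?_⟩
    rw [← hc]
    refine le_trans (le_of_eq ?_) hle
    rcases Nat.eq_zero_or_pos G.n with h0 | hpos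
    · simp [h0]
    · have h2 : 1 ≤ 3 * dd G.n := by
        unfold dd
        omega
      rw [Nat.cast_add, Nat.cast_mul, Nat.cast_sub h2]
      push_cast
      ring

theorem outInst_outDegree (G : FinGraph) : OutDegreeTwo (outInst G) := by
  classical
  constructor
  · intro i
    let e : Fin (G.n * G.n + G.n) ≃ Fin G.n × Fin G.n ⊕ Fin G.n :=
      finSumFinEquiv.symm.trans (Equiv.sumCongr finProdFinEquiv.symm (Equiv.refl _))
    change (univ.filter fun l : Fin G.n =>
      ((outData G.n (cf G)).arcI (e i) l).isSome = true).card ≤ 2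
    rcases e i with q | k
    · refine (card_le_card (t := {q.1, q.2}) ?_).trans card_le_two
      intro l hl
      rw [mem_filter] at hl
      have := hl.2
      simp only [outData] at this
      rw [mem_insert, mem_singleton]
      by_contra hne
      rw [if_neg hne] at this
      exact absurd this (by simp)
    · refine (card_le_card (t := {k}) ?_).trans (by simp)
      intro l hl
      rw [mem_filter] at hl
      have := hl.2
      simp only [outData] at this
      rw [mem_singleton]
      by_contra hne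
      rw [if_neg (fun h : k = l => hne h.symm)] at this
      exact absurd this (by simp)
  · have key : ∀ l : Fin G.n, (univ.filter fun j : Fin G.n ⊕ Fin G.n =>
        ((outData G.n (cf G)).arcJ l j).isSome = true).card ≤ 2 := by
      intro l
      refine (card_le_card (t := {Sum.inl l, Sum.inr l}) ?_).trans card_le_two
      intro j hj
      have := (mem_filter.1 hj).2
      rw [mem_insert, mem_singleton]
      rcases j with k | k
      · left
        simp only [outData] at this
        by_contra hne
        rw [if_neg (fun h : k = l => hne (congrArg Sum.inl h))] at this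
        exact absurd this (by simp)
      · right
        simp only [outData] at this
        by_contra hne
        rw [if_neg (fun h : k = l => hne (congrArg Sum.inr h))] at this
        exact absurd this (by simp)
    intro l
    have h1 := card_filter_equiv (finSumFinEquiv (m := G.n) (n := G.n)).symm
      (fun j => ((outData G.n (cf G)).arcJ l j).isSome = true)
    exact (le_of_eq h1).trans (key l)

theorem outInst_small (G : FinGraph) :
    SmallNumbers (outInst G) (8 * ((outInst G).nI + (outInst G).nL + (outInst G).nJ)) := by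
  have hB : (outInst G).nI + (outInst G).nL + (outInst G).nJ =
      G.n * G.n + G.n + G.n + (G.n + G.n) := rfl
  rw [hB]
  obtain ⟨B, hBdef⟩ : ∃ B, B = 8 * (G.n * G.n + G.n + G.n + (G.n + G.n)) := ⟨_, rfl⟩
  rw [← hBdef]
  have hd : dd G.n ≤ 2 * G.n := by unfold dd; omega
  have hsq : 0 ≤ G.n * G.n := Nat.zero_le _
  have hbig : ∀ l : Fin G.n, 3 ≤ B := by
    intro l
    have := l.2
    omega
  have sm : ∀ (l : Fin G.n) (z : ℤ), |z| ≤ 3 → IsSmall B (z : ℚ) :=
    fun l z hz => isSmall_int z (hz.trans (by exact_mod_cast hbig l))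
  have z0 : IsSmall B (0 : ℚ) := ⟨0, by norm_num, by simp⟩
  have n1 : ∀ _ : Fin G.n, IsSmall B (1 : ℚ) := fun l => by exact_mod_cast sm l 1 (by norm_num)
  have n2 : ∀ _ : Fin G.n, IsSmall B (2 : ℚ) := fun l => by exact_mod_cast sm l 2 (by norm_num)
  have m1 : ∀ _ : Fin G.n, IsSmall B (-1 : ℚ) := fun l => by
    exact_mod_cast sm l (-1) (by norm_num)
  have m3 : ∀ _ : Fin G.n, IsSmall B (-3 : ℚ) := fun l => by
    exact_mod_cast sm l (-3) (by norm_num)
  have hW : 3 * dd G.n - 1 ≤ B := by omega
  have hD : dd G.n ≤ B := by omega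
  have h4 : 4 * dd G.n ≤ B := by omega
  constructor
  · intro i l a ha
    let e : Fin (G.n * G.n + G.n) ≃ Fin G.n × Fin G.n ⊕ Fin G.n :=
      finSumFinEquiv.symm.trans (Equiv.sumCongr finProdFinEquiv.symm (Equiv.refl _))
    have ha' : (outData G.n (cf G)).arcI (e i) l = some a := ha
    clear ha
    revert ha'
    rcases e i with q | k <;> intro ha'
    · simp only [outData] at ha'
      split_ifs at ha' with hi
      rw [Option.some_inj] at ha'
      subst ha'
      exact ⟨z0, n1 l, by norm_num⟩
    · simp only [outData] at ha'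
      split_ifs at ha' with hi
      rw [Option.some_inj] at ha'
      subst ha'
      exact ⟨z0, isSmall_nat hW, Nat.cast_nonneg _⟩
  · intro l j a ha
    let g : Fin (G.n + G.n) ≃ Fin G.n ⊕ Fin G.n := finSumFinEquiv.symm
    have ha' : (outData G.n (cf G)).arcJ l (g j) = some a := ha
    clear ha
    revert ha'
    rcases g j with k | k <;> intro ha'
    · simp only [outData] at ha'
      split_ifs at ha' with hi
      rw [Option.some_inj] at ha'
      subst ha'
      exact ⟨m3 l, isSmall_nat hD, Nat.cast_nonneg _⟩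
    · simp only [outData] at ha'
      split_ifs at ha' with hi
      rw [Option.some_inj] at ha'
      subst ha'
      exact ⟨m1 l, isSmall_nat hW, Nat.cast_nonneg _⟩
  · intro i
    let e : Fin (G.n * G.n + G.n) ≃ Fin G.n × Fin G.n ⊕ Fin G.n :=
      finSumFinEquiv.symm.trans (Equiv.sumCongr finProdFinEquiv.symm (Equiv.refl _))
    change IsSmall _ ((outData G.n (cf G)).capI (e i)) ∧ 0 ≤ (outData G.n (cf G)).capI (e i)
    rcases e i with q | k
    · simp only [outData]
      split_ifs
      · exact ⟨n1 q.1, by norm_num⟩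
      · exact ⟨n2 q.1, by norm_num⟩
    · exact ⟨isSmall_nat h4, Nat.cast_nonneg _⟩
  · intro i
    exact ⟨isSmall_nat h4, Nat.cast_nonneg _⟩
  · intro i
    exact ⟨isSmall_nat h4, Nat.cast_nonneg _⟩
  · intro i
    let e : Fin (G.n * G.n + G.n) ≃ Fin G.n × Fin G.n ⊕ Fin G.n :=
      finSumFinEquiv.symm.trans (Equiv.sumCongr finProdFinEquiv.symm (Equiv.refl _))
    change IsSmall _ ((outData G.n (cf G)).lam (e i))
    rcases e i with q | k
    · exact z0
    · exact n1 k
  · intro j
    let g : Fin (G.n + G.n) ≃ Fin G.n ⊕ Fin G.n := finSumFinEquiv.symm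
    change IsSmall _ ((outData G.n (cf G)).mu (g j))
    rcases g j with k | k
    · exact z0
    · exact n1 k

theorem outInst_threshold (G : FinGraph) (k : ℕ) (hk : G.n = 3 * k) :
    IsSmall (8 * ((outInst G).nI + (outInst G).nL + (outInst G).nJ))
      (-((G.n * (3 * dd G.n - 1) + k : ℕ) : ℚ)) := by
  have hB : (outInst G).nI + (outInst G).nL + (outInst G).nJ =
      G.n * G.n + G.n + G.n + (G.n + G.n) := rfl
  rw [hB]
  have hd : dd G.n ≤ 2 * G.n := by unfold dd; omega
  have h1 : G.n * (3 * dd G.n - 1) ≤ G.n * (6 * G.n) := Nat.mul_le_mul_left _ (by omega)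
  exact isSmall_neg (by nlinarith)

theorem poly_outBase : Poly (fun G : FinGraph => G.n * (3 * dd G.n - 1)) := by
  exact NPC.Poly.mul (poly_n NPC.Poly.id) (NPC.Poly.sub (NPC.Poly.mul (NPC.Poly.const 3)
    (poly_dd (poly_n NPC.Poly.id))) (NPC.Poly.const 1))

end Pool.Agent.R531.Pooling
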